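import Mathlib

/-!
# Algebraic implicit functions

A nondegenerate solution of a square system of polynomial equations at a point extends to a solution over
the algebraic closure of the field of rational functions in the parameters; a polynomial which does not
vanish at the point does not vanish at the extended solution. Proof: the system is étale at the point, étale
algebras are flat, flat algebras have going down.
-/

set_option autoImplicit false

open MvPolynomial

namespace Pool.Agent.CYn

/-- a point of an étale algebra over a domain is a specialisation of a generic point -/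
theorem etale_generic (R S : Type) [CommRing R] [IsDomain R] [CommRing S] [Algebra R S] [Algebra.Etale R S]
    (k : Type) [Field k] (ev : S →+* k) (Om : Type) [Field Om] [IsAlgClosed Om] (ι : R →+* Om)
    (hι : Function.Injective ι) :
    ∃ φ : S →+* Om, (∀ r, φ (algebraMap R S r) = ι r) ∧ (∀ a, ev a ≠ 0 → φ a ≠ 0) ∧
      ∀ a, ∃ p : Polynomial R, p ≠ 0 ∧ p.eval₂ ι (φ a) = 0 := by
  have h2 : Module.Flat R S := inferInstance
  have h3 : Algebra.HasGoingDown R S := inferInstance
  let Q : Ideal S := RingHom.ker ev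
  have hQp : Q.IsPrime := RingHom.ker_isPrime ev
  obtain ⟨q, hqQ, hqp, hq⟩ := Ideal.exists_ideal_le_liesOver_of_le (p := (⊥ : Ideal R))
    (q := Q.under R) Q bot_le
  let D := S ⧸ q
  have hD : IsDomain D := inferInstance
  let E := FractionRing D
  have hinj : Function.Injective (algebraMap R D) := by
    rw [injective_iff_map_eq_zero]
    intro a ha
    have h4 : algebraMap R S a ∈ q := by
      rw [← Ideal.Quotient.eq_zero_iff_mem]
      exact ha
    have h5 : a ∈ q.under R := h4
    rw [← hq.over] at h5
    exact h5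
  have hinjE : Function.Injective (algebraMap R E) := by
    rw [IsScalarTower.algebraMap_eq R D E]
    exact (IsFractionRing.injective D E).comp hinj
  have hFU : Algebra.FormallyUnramified R D :=
    Algebra.FormallyUnramified.of_surjective (Ideal.Quotient.mkₐ R q)
      (Ideal.Quotient.mkₐ_surjective _ _)
  have hFT : Algebra.FiniteType R D :=
    Algebra.FiniteType.of_surjective (Ideal.Quotient.mkₐ R q)
      (Ideal.Quotient.mkₐ_surjective _ _)
  have hDE : Algebra.FormallyUnramified D E := Algebra.FormallyUnramified.of_isLocalization (nonZeroDivisors D)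
  have hRE : Algebra.FormallyUnramified R E := Algebra.FormallyUnramified.comp _ D E
  let kR := FractionRing R
  have hfs : FaithfulSMul R E := (faithfulSMul_iff_algebraMap_injective _ _).2 hinjE
  let : Algebra kR E := FractionRing.liftAlgebra R E
  have hst : IsScalarTower R kR E := FractionRing.isScalarTower_liftAlgebra R E
  have h6 : Algebra.FormallyUnramified kR E := Algebra.FormallyUnramified.of_restrictScalars R kR E
  have h7 : Algebra.EssFiniteType D E := Algebra.EssFiniteType.of_isLocalization _ (nonZeroDivisors D)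
  have h8 : Algebra.EssFiniteType R E := Algebra.EssFiniteType.comp R D E
  have h9 : Algebra.EssFiniteType kR E := Algebra.EssFiniteType.of_comp R kR E
  have h10 : Module.Finite kR E := Algebra.FormallyUnramified.finite_of_free kR E
  have h11 : Algebra.IsAlgebraic kR E := inferInstance
  have h12 : Algebra.IsAlgebraic R E := (IsFractionRing.comap_isAlgebraic_iff (K := kR)).2 h11
  let : Algebra R Om := ι.toAlgebra
  have hfo : FaithfulSMul R Om := (faithfulSMul_iff_algebraMap_injective _ _).2 hι
  let φ : E →ₐ[R] Om := IsAlgClosed.lift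
  have hφi : Function.Injective φ := φ.toRingHom.injective
  refine ⟨(φ : E →+* Om).comp ((algebraMap D E).comp (Ideal.Quotient.mk q)), ?_, ?_, ?_⟩
  · intro r
    exact φ.commutes r
  · intro a ha h
    have h13 : (algebraMap D E) (Ideal.Quotient.mk q a) = 0 := hφi (by rw [map_zero]; exact h)
    have h14 : Ideal.Quotient.mk q a = 0 := IsFractionRing.injective D E (by rw [map_zero]; exact h13)
    exact ha (hqQ (Ideal.Quotient.eq_zero_iff_mem.1 h14))
  · intro a
    obtain ⟨p, hp, hpa⟩ := h12.isAlgebraic (algebraMap D E (Ideal.Quotient.mk q a))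
    refine ⟨p, hp, ?_⟩
    have h15 : Polynomial.aeval (φ (algebraMap D E (Ideal.Quotient.mk q a))) p = 0 := by
      rw [Polynomial.aeval_algHom_apply, hpa, map_zero]
    rw [Polynomial.aeval_def] at h15
    exact h15

theorem isUnit_mk {A : Type} [CommRing A] (I : Ideal A) (z j : A) (h : z * j - 1 ∈ I) :
    IsUnit (Ideal.Quotient.mk I j) := by
  have h1 : Ideal.Quotient.mk I (z * j - 1) = 0 := Ideal.Quotient.eq_zero_iff_mem.2 h
  rw [map_sub, map_mul, map_one, sub_eq_zero] at h1
  exact IsUnit.of_mul_eq_one _ (by rw [mul_comm]; exact h1)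

section ring

variable {s t : Type}

/-- the parameters become coefficients -/
noncomputable def psi : MvPolynomial (s ⊕ t) ℂ →ₐ[ℂ] MvPolynomial (t ⊕ Unit) (MvPolynomial s ℂ) :=
  aeval (Sum.elim (fun a => C (X a)) (fun b => X (Sum.inl b)))

theorem pderiv_psi_inl [DecidableEq t] (j : t) (p : MvPolynomial (s ⊕ t) ℂ) :
    pderiv (Sum.inl j) (psi p) = psi (pderiv (Sum.inr j) p) := by
  induction p using MvPolynomial.induction_on with
  | C a => simp [psi]
  | add p q hp hq => simp [hp, hq]
  | mul_X p i h =>
    rw [map_mul, Derivation.leibniz, Derivation.leibniz, map_add, smul_eq_mul, smul_eq_mul,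
      smul_eq_mul, smul_eq_mul, map_mul, map_mul, h]
    congr 1
    rcases i with i | i
    · simp [psi]
    · by_cases hij : i = j
      · subst hij
        simp [psi]
      · have h1 : (Sum.inl i : t ⊕ Unit) ≠ Sum.inl j := fun h => hij (Sum.inl_injective h)
        have h2 : (Sum.inr i : s ⊕ t) ≠ Sum.inr j := fun h => hij (Sum.inr_injective h)
        simp [psi, pderiv_X_of_ne h1, pderiv_X_of_ne h2]

theorem pderiv_psi_inr (p : MvPolynomial (s ⊕ t) ℂ) :
    pderiv (Sum.inr ()) (psi p) = 0 := by
  induction p using MvPolynomial.induction_on with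
  | C a => simp [psi]
  | add p q hp hq => simp [hp, hq]
  | mul_X p i h =>
    rw [map_mul, Derivation.leibniz, h, smul_zero, add_zero]
    rcases i with i | i
    · simp [psi]
    · have h1 : (Sum.inl i : t ⊕ Unit) ≠ Sum.inr () := by simp
      simp [psi, pderiv_X_of_ne h1]

/-- the Jacobian -/
noncomputable def jac [Fintype t] [DecidableEq t] (F : t → MvPolynomial (s ⊕ t) ℂ) : MvPolynomial (s ⊕ t) ℂ :=
  Matrix.det (Matrix.of fun i j : t => pderiv (Sum.inr j) (F i))

variable [Fintype t] [DecidableEq t] (F : t → MvPolynomial (s ⊕ t) ℂ)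

/-- the equations `F` and `z J = 1` -/
noncomputable def rel : t ⊕ Unit → MvPolynomial (t ⊕ Unit) (MvPolynomial s ℂ) :=
  Sum.elim (fun i => psi (F i)) (fun _ => X (Sum.inr ()) * psi (jac F) - 1)

/-- the étale algebra -/
abbrev EtAlg : Type := MvPolynomial (t ⊕ Unit) (MvPolynomial s ℂ) ⧸ Ideal.span (Set.range (rel F))

/-- the presentation -/
noncomputable def pres : Algebra.PreSubmersivePresentation (MvPolynomial s ℂ) (EtAlg F) (t ⊕ Unit) (t ⊕ Unit) :=
  Algebra.PreSubmersivePresentation.naive (v := rel F) id Function.injective_id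

theorem jac_pres : (pres F).jacobiMatrix.det = psi (jac F) * psi (jac F) := by
  have h : (pres F).jacobiMatrix = Matrix.fromBlocks
      ((Matrix.of fun i j : t => psi (pderiv (Sum.inr j) (F i))).transpose)
      (Matrix.of fun i _ => (pres F).jacobiMatrix (Sum.inl i) (Sum.inr ()))
      0 (Matrix.of fun _ _ : Unit => psi (jac F)) := by
    apply Matrix.ext
    intro i j
    rcases i with i | i
    · rcases j with j | j
      · unfold pres
        rw [Algebra.PreSubmersivePresentation.jacobiMatrix_naive]
        simp only [rel, Sum.elim_inl, id, Matrix.fromBlocks_apply₁₁, Matrix.transpose_apply, Matrix.of_apply]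
        rw [pderiv_psi_inl]
      · rfl
    · rcases j with j | j
      · unfold pres
        rw [Algebra.PreSubmersivePresentation.jacobiMatrix_naive]
        simp only [rel, Sum.elim_inl, id, Matrix.fromBlocks_apply₂₁, Matrix.zero_apply]
        exact pderiv_psi_inr _
      · unfold pres
        rw [Algebra.PreSubmersivePresentation.jacobiMatrix_naive]
        simp only [rel, Sum.elim_inr, id, Matrix.fromBlocks_apply₂₂, Matrix.of_apply]
        rw [map_sub, Derivation.leibniz, pderiv_psi_inr]
        simp
  rw [h, Matrix.det_fromBlocks_zero₂₁, Matrix.det_transpose]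
  congr 1
  · rw [jac, ← AlgHom.coe_toRingHom, RingHom.map_det]
    rfl
  · simp

theorem etale : Algebra.IsStandardSmoothOfRelativeDimension 0 (MvPolynomial s ℂ) (EtAlg F) := by
  have hu : IsUnit (pres F).jacobian := by
    rw [Algebra.PreSubmersivePresentation.jacobian_eq_jacobiMatrix_det, jac_pres, map_mul]
    have h2 := isUnit_mk (Ideal.span (Set.range (rel F))) (X (Sum.inr ())) (psi (jac F))
      (Ideal.subset_span ⟨Sum.inr (), rfl⟩)
    exact h2.mul h2
  let P : Algebra.SubmersivePresentation (MvPolynomial s ℂ) (EtAlg F) (t ⊕ Unit) (t ⊕ Unit) :=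
    { toPreSubmersivePresentation := pres F, jacobian_isUnit := hu }
  exact P.isStandardSmoothOfRelativeDimension (by simp [Algebra.Presentation.dimension])

/-- ALGEBRAIC IMPLICIT FUNCTIONS -/
theorem aift (x0 : s → ℂ) (y0 : t → ℂ) (hF : ∀ i, eval (Sum.elim x0 y0) (F i) = 0)
    (hJ : eval (Sum.elim x0 y0) (jac F) ≠ 0) (Om : Type) [Field Om] [Algebra ℂ Om] [IsAlgClosed Om]
    (x : s → Om) (hx : AlgebraicIndependent ℂ x) :
    ∃ y : t → Om, (∀ i, aeval (Sum.elim x y) (F i) = 0) ∧
      (∀ H : MvPolynomial (s ⊕ t) ℂ, eval (Sum.elim x0 y0) H ≠ 0 → aeval (Sum.elim x y) H ≠ 0) ∧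
      ∀ j, IsAlgebraic (IntermediateField.adjoin ℂ (Set.range x)) (y j) := by
  have h0 := etale F
  have h1 : Algebra.Etale (MvPolynomial s ℂ) (EtAlg F) := inferInstance
  -- evaluation at the given point
  let ev0 : MvPolynomial (t ⊕ Unit) (MvPolynomial s ℂ) →+* ℂ :=
    eval₂Hom (eval x0) (Sum.elim y0 (fun _ => (eval (Sum.elim x0 y0) (jac F))⁻¹))
  have hev : ∀ p : MvPolynomial (s ⊕ t) ℂ, ev0 (psi p) = eval (Sum.elim x0 y0) p := by
    intro p
    have h : ev0.comp (psi (s := s) (t := t)).toRingHom = eval (Sum.elim x0 y0) := by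
      apply MvPolynomial.ringHom_ext
      · intro r
        simp [psi, ev0]
      · intro i
        rcases i with i | i <;> simp [psi, ev0]
    exact congrArg (fun f : MvPolynomial (s ⊕ t) ℂ →+* ℂ => f p) h
  have hker : ∀ a ∈ Ideal.span (Set.range (rel F)), ev0 a = 0 := by
    intro a ha
    have h : Ideal.span (Set.range (rel F)) ≤ RingHom.ker ev0 := by
      rw [Ideal.span_le]
      rintro _ ⟨i, rfl⟩
      rcases i with i | i
      · show ev0 (psi (F i)) = 0
        rw [hev, hF]
      · show ev0 (X (Sum.inr ()) * psi (jac F) - 1) = 0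
        rw [map_sub, map_mul, hev, map_one]
        simp [ev0, hJ]
    exact h ha
  let ev : EtAlg F →+* ℂ := Ideal.Quotient.lift _ ev0 hker
  obtain ⟨φ, hφ1, hφ2, hφ3⟩ := etale_generic (MvPolynomial s ℂ) (EtAlg F) ℂ ev Om
    ((aeval x : MvPolynomial s ℂ →ₐ[ℂ] Om) : MvPolynomial s ℂ →+* Om) hx
  let mk : MvPolynomial (t ⊕ Unit) (MvPolynomial s ℂ) →+* EtAlg F :=
    Ideal.Quotient.mk (Ideal.span (Set.range (rel F)))
  have hmk : ∀ i, mk (rel F i) = 0 := fun i =>
    Ideal.Quotient.eq_zero_iff_mem.2 (Ideal.subset_span ⟨i, rfl⟩)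
  let y : t → Om := fun j => φ (mk (X (Sum.inl j)))
  have hφψ : ∀ p : MvPolynomial (s ⊕ t) ℂ, φ (mk (psi p)) = aeval (Sum.elim x y) p := by
    intro p
    have h : (φ.comp mk).comp (psi (s := s) (t := t)).toRingHom =
        ((aeval (Sum.elim x y) : MvPolynomial (s ⊕ t) ℂ →ₐ[ℂ] Om) : MvPolynomial (s ⊕ t) ℂ →+* Om) := by
      apply MvPolynomial.ringHom_ext
      · intro r
        have h2 : psi (s := s) (t := t) (C r) = C (C r) := by simp [psi]
        show φ (mk (psi (C r))) = aeval (Sum.elim x y) (C r)
        rw [h2]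
        have h3 := hφ1 (C r)
        rw [AlgHom.coe_toRingHom, aeval_C] at h3
        rw [aeval_C, ← h3]
        rfl
      · intro i
        rcases i with i | i
        · have h2 : psi (s := s) (t := t) (X (Sum.inl i)) = C (X i) := by simp [psi]
          show φ (mk (psi (X (Sum.inl i)))) = aeval (Sum.elim x y) (X (Sum.inl i))
          rw [h2]
          have h3 := hφ1 (X i)
          rw [AlgHom.coe_toRingHom, aeval_X] at h3
          rw [aeval_X, Sum.elim_inl, ← h3]
          rfl
        · have h2 : psi (s := s) (t := t) (X (Sum.inr i)) = X (Sum.inl i) := by simp [psi]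
          show φ (mk (psi (X (Sum.inr i)))) = aeval (Sum.elim x y) (X (Sum.inr i))
          rw [h2, aeval_X, Sum.elim_inr]
    exact congrArg (fun f : MvPolynomial (s ⊕ t) ℂ →+* Om => f p) h
  refine ⟨y, fun i => ?_, fun H hH => ?_, fun j => ?_⟩
  · rw [← hφψ]
    have h := hmk (Sum.inl i)
    have h' : mk (psi (F i)) = 0 := h
    rw [h', map_zero]
  · rw [← hφψ]
    apply hφ2
    show ev (mk (psi H)) ≠ 0
    have h : ev (mk (psi H)) = ev0 (psi H) := rfl
    rw [h, hev]
    exact hH
  · obtain ⟨p, hp, hpy⟩ := hφ3 (mk (X (Sum.inl j)))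
    let κ : MvPolynomial s ℂ →ₐ[ℂ] IntermediateField.adjoin ℂ (Set.range x) :=
      aeval (fun a => ⟨x a, IntermediateField.subset_adjoin ℂ _ ⟨a, rfl⟩⟩)
    have hκ : ∀ q : MvPolynomial s ℂ, ((κ q : IntermediateField.adjoin ℂ (Set.range x)) : Om) = aeval x q := by
      intro q
      have h : (IntermediateField.adjoin ℂ (Set.range x)).val.comp κ = aeval x := by
        apply MvPolynomial.algHom_ext
        intro a
        simp [κ]
      exact congrArg (fun f : MvPolynomial s ℂ →ₐ[ℂ] Om => f q) h
    have hκi : Function.Injective κ := by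
      intro a b hab
      apply hx
      rw [← hκ, ← hκ, hab]
    refine ⟨p.map (κ : MvPolynomial s ℂ →+* IntermediateField.adjoin ℂ (Set.range x)), ?_, ?_⟩
    · intro h
      exact hp ((Polynomial.map_eq_zero_iff (f := (κ : MvPolynomial s ℂ →+* IntermediateField.adjoin ℂ (Set.range x))) hκi).1 h)
    · rw [Polynomial.aeval_def, Polynomial.eval₂_map]
      have h : ((algebraMap (IntermediateField.adjoin ℂ (Set.range x)) Om).comp
          (κ : MvPolynomial s ℂ →+* _)) = ((aeval x : MvPolynomial s ℂ →ₐ[ℂ] Om) : MvPolynomial s ℂ →+* Om) := by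
        apply RingHom.ext
        intro q
        exact hκ q
      rw [h]
      exact hpy

end ring

end Pool.Agent.CYn
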