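import Mathlib

/-! PIECE D: two coprime polynomials have no common zero with all coordinates but one algebraically
independent. -/

set_option autoImplicit false

namespace Pool.Agent.CYn

open Polynomial in
/-- Coprime polynomials over a unique factorization domain stay coprime over the fraction field. -/
theorem isCoprime_map_fraction {R K : Type*} [CommRing R] [IsDomain R]
    [UniqueFactorizationMonoid R] [Field K] [Algebra R K] [IsFractionRing R K] {p q : R[X]}
    (h : IsRelPrime p q) : IsCoprime (p.map (algebraMap R K)) (q.map (algebraMap R K)) := by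
  classical
  let : NormalizedGCDMonoid R := (inferInstance : Nonempty (NormalizedGCDMonoid R)).some
  have hinj : Function.Injective (algebraMap R K) := IsFractionRing.injective R K
  refine isCoprime_of_dvd _ _ ?_ ?_
  · rintro ⟨h1, h2⟩
    have e1 : p = 0 := Polynomial.map_injective _ hinj (by simpa using h1)
    have e2 : q = 0 := Polynomial.map_injective _ hinj (by simpa using h2)
    subst e1; subst e2
    exact (not_isUnit_X (R := R)) (h (dvd_zero _) (dvd_zero _))
  · intro z hz hz0 hzp hzq
    apply hz
    set g := IsLocalization.integerNormalization (nonZeroDivisors R) z with hg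
    obtain ⟨c, c0, hc⟩ := IsLocalization.integerNormalization_spec (nonZeroDivisors R) z
    rw [Algebra.smul_def, Polynomial.algebraMap_apply] at hc
    have hg0 : g ≠ 0 := by
      rw [hg, Ne, IsFractionRing.integerNormalization_eq_zero_iff]
      exact hz0
    have hcu : IsUnit (C (algebraMap R K c)) := by
      rw [isUnit_C, isUnit_iff_ne_zero]
      intro h0
      rw [mem_nonZeroDivisors_iff_ne_zero] at c0
      exact c0 (hinj (by simpa using h0))
    have hgz : Associated (g.map (algebraMap R K)) z := by
      rw [hc]
      exact (associated_unit_mul_left z _ hcu)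
    have hct : IsUnit (C (algebraMap R K g.content)) := by
      rw [isUnit_C, isUnit_iff_ne_zero]
      intro h0
      exact hg0 (content_eq_zero_iff.mp (hinj (by simpa using h0)))
    have hpz : Associated (g.primPart.map (algebraMap R K)) z := by
      refine Associated.trans ?_ hgz
      conv_rhs => rw [g.eq_C_content_mul_primPart, Polynomial.map_mul, map_C]
      exact (associated_unit_mul_left _ _ hct).symm
    have h1 : g.primPart ∣ p :=
      g.isPrimitive_primPart.dvd_of_fraction_map_dvd_fraction_map (hpz.dvd.trans hzp)
    have h2 : g.primPart ∣ q :=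
      g.isPrimitive_primPart.dvd_of_fraction_map_dvd_fraction_map (hpz.dvd.trans hzq)
    exact isUnit_or_eq_zero_of_isUnit_integerNormalization_primPart hz0 (h h1 h2)

open MvPolynomial in
theorem bezout_option {σ : Type*} (A C : MvPolynomial (Option σ) ℂ) (hAC : IsRelPrime A C)
    {Om : Type*} [Field Om] [Algebra ℂ Om] (b : Option σ → Om)
    (hb : AlgebraicIndependent ℂ (fun m : σ => b (some m))) (hA : aeval b A = 0)
    (hC : aeval b C = 0) : False := by
  classical
  let e : MvPolynomial (Option σ) ℂ ≃ₐ[ℂ] Polynomial (MvPolynomial σ ℂ) := optionEquivLeft ℂ σ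
  let φ : MvPolynomial σ ℂ →+* Om :=
    (aeval (fun m : σ => b (some m)) : MvPolynomial σ ℂ →ₐ[ℂ] Om).toRingHom
  have hφ : Function.Injective φ := hb
  let ψ : FractionRing (MvPolynomial σ ℂ) →+* Om := IsFractionRing.lift hφ
  have hψ : ∀ r : MvPolynomial σ ℂ, ψ (algebraMap _ (FractionRing (MvPolynomial σ ℂ)) r) =
      aeval (fun m : σ => b (some m)) r := fun r => IsFractionRing.lift_algebraMap hφ r
  have hev : ∀ P : MvPolynomial (Option σ) ℂ,
      aeval b P = Polynomial.eval₂ ψ (b none) ((e P).map (algebraMap _ _)) := by
    intro P
    rw [Polynomial.eval₂_map]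
    have : ((aeval b : MvPolynomial (Option σ) ℂ →ₐ[ℂ] Om) : MvPolynomial (Option σ) ℂ →+* Om) =
        (Polynomial.eval₂RingHom (ψ.comp (algebraMap _ _)) (b none)).comp
          (e : MvPolynomial (Option σ) ℂ →+* Polynomial (MvPolynomial σ ℂ)) := by
      refine MvPolynomial.ringHom_ext ?_ ?_
      · intro r
        have he : e (MvPolynomial.C r) = Polynomial.C (MvPolynomial.C r) :=
          optionEquivLeft_C ℂ σ r
        simp only [RingHom.coe_comp, Function.comp_apply, RingHom.coe_coe]
        rw [he]
        simp [hψ]
      · intro i
        cases i with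
        | none =>
          have he : e (X none) = Polynomial.X := optionEquivLeft_X_none ℂ σ
          simp only [RingHom.coe_comp, Function.comp_apply, RingHom.coe_coe]
          rw [he]
          simp
        | some i =>
          have he : e (X (some i)) = Polynomial.C (X i) := optionEquivLeft_X_some ℂ σ i
          simp only [RingHom.coe_comp, Function.comp_apply, RingHom.coe_coe]
          rw [he]
          simp [hψ]
    exact congrArg (fun f : MvPolynomial (Option σ) ℂ →+* Om => f P) this
  have hrel : IsRelPrime (e A) (e C) := by
    intro d hd1 hd2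
    have h1 : e.symm d ∣ A := by
      have := map_dvd e.symm hd1
      simpa using this
    have h2 : e.symm d ∣ C := by
      have := map_dvd e.symm hd2
      simpa using this
    have h3 := hAC h1 h2
    have h4 := h3.map e
    simpa using h4
  obtain ⟨U, V, hUV⟩ :=
    isCoprime_map_fraction (K := FractionRing (MvPolynomial σ ℂ)) hrel
  have h5 := congrArg (Polynomial.eval₂ ψ (b none)) hUV
  rw [Polynomial.eval₂_add, Polynomial.eval₂_mul, Polynomial.eval₂_mul, ← hev, ← hev, hA, hC,
    mul_zero, mul_zero, add_zero, Polynomial.eval₂_one] at h5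
  exact zero_ne_one h5

open MvPolynomial in
/-- PIECE D. -/
theorem bezout_alg {s : Type*} (A C : MvPolynomial s ℂ) (hAC : IsRelPrime A C) {Om : Type*}
    [Field Om] [Algebra ℂ Om] (b : s → Om) (l : s)
    (hb : AlgebraicIndependent ℂ (fun m : {m // m ≠ l} => b m)) (hA : aeval b A = 0)
    (hC : aeval b C = 0) : False := by
  classical
  let E := Equiv.optionSubtypeNe l
  let e : MvPolynomial s ℂ ≃ₐ[ℂ] MvPolynomial (Option {m // m ≠ l}) ℂ := renameEquiv ℂ E.symm
  have hev : ∀ P : MvPolynomial s ℂ, aeval (fun o => b (E o)) (e P) = aeval b P := by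
    intro P
    change aeval (fun o => b (E o)) (rename E.symm P) = aeval b P
    rw [aeval_rename]
    congr 2
    funext i
    simp
  refine bezout_option (e A) (e C) ?_ (fun o => b (E o)) ?_ ?_ ?_
  · intro d hd1 hd2
    have h1 : e.symm d ∣ A := by
      have := map_dvd e.symm hd1
      simpa using this
    have h2 : e.symm d ∣ C := by
      have := map_dvd e.symm hd2
      simpa using this
    have h3 := hAC h1 h2
    have h4 := h3.map e
    simpa using h4
  · exact hb
  · rw [hev, hA]
  · rw [hev, hC]

end Pool.Agent.CYn
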