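import Mathlib

/-!
# Calculus of a nondegenerate tangent line (piece C of CYn, board note 2938)
-/

set_option autoImplicit false

open MvPolynomial

namespace Pool.Agent.CYn

variable {Om : Type} [Field Om] [Algebra ℂ Om]

/-- chain rule -/
theorem der_aeval {s : Type} [Fintype s] (D : Derivation ℂ Om Om) (y : s → Om)
    (f : MvPolynomial s ℂ) : D (aeval y f) = ∑ l, aeval y (pderiv l f) * D (y l) := by
  classical
  induction f using MvPolynomial.induction_on with
  | C a =>
    rw [← MvPolynomial.algebraMap_eq, AlgHom.commutes, Derivation.map_algebraMap]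
    refine (Finset.sum_eq_zero fun l _ => ?_).symm
    rw [MvPolynomial.algebraMap_eq, pderiv_C, map_zero, zero_mul]
  | add p q hp hq =>
    rw [map_add, map_add, hp, hq, ← Finset.sum_add_distrib]
    exact Finset.sum_congr rfl fun l _ => by rw [map_add, map_add, add_mul]
  | mul_X p i hp =>
    rw [map_mul, aeval_X, Derivation.leibniz, hp, smul_eq_mul, smul_eq_mul]
    have h1 : ∀ l, aeval y (pderiv l (p * X i)) * D (y l) =
        (if l = i then aeval y p * D (y i) else 0) + y i * (aeval y (pderiv l p) * D (y l)) := by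
      intro l
      rw [Derivation.leibniz, smul_eq_mul, smul_eq_mul, pderiv_X, map_add, map_mul, map_mul, aeval_X]
      by_cases h : l = i
      · subst h
        rw [if_pos rfl, Pi.single_eq_same, map_one]
        ring
      · rw [if_neg h, Pi.single_eq_of_ne (Ne.symm h), map_zero]
        ring
    rw [Finset.sum_congr rfl fun l _ => h1 l, Finset.sum_add_distrib, Finset.sum_ite_eq' Finset.univ i,
      if_pos (Finset.mem_univ _), ← Finset.mul_sum]

/-- a line through `x` with direction `v` which is tangent to `f = 0` at the `m` points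
`x + τ i • v`, in a nondegenerate way -/
structure Tang {m : ℕ} (f : MvPolynomial (Fin (m + 1)) ℂ) (j0 : Fin (m + 1))
    (x : Fin (m + 1) → Om) where
  v : Fin (m + 1) → Om
  τ : Fin m → Om
  v0 : v j0 = 1
  on : ∀ i, aeval (fun l => x l + τ i * v l) f = 0
  tan : ∀ i, ∑ l, aeval (fun l => x l + τ i * v l) (pderiv l f) * v l = 0
  τ0 : ∀ i, τ i ≠ 0
  inj : Function.Injective τ
  nd : ∀ d : Fin (m + 1) → Om, d j0 = 0 →
    (∀ i, ∑ l, aeval (fun l => x l + τ i * v l) (pderiv l f) * d l = 0) → d = 0
  curv : ∀ i, ∑ l, (∑ k, aeval (fun l => x l + τ i * v l) (pderiv k (pderiv l f)) * v k) * v l ≠ 0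

namespace Tang

variable {m : ℕ} {f : MvPolynomial (Fin (m + 1)) ℂ} {j0 : Fin (m + 1)} {x : Fin (m + 1) → Om}
  (T : Tang f j0 x)

/-- the points of tangency -/
def b (i : Fin m) (l : Fin (m + 1)) : Om := x l + T.τ i * T.v l

theorem on' (i : Fin m) : aeval (T.b i) f = 0 := T.on i

theorem tan' (i : Fin m) : ∑ l, aeval (T.b i) (pderiv l f) * T.v l = 0 := T.tan i

/-- the second derivative in the direction of the line -/
noncomputable def H (i : Fin m) : Om :=
  ∑ l, (∑ k, aeval (T.b i) (pderiv k (pderiv l f)) * T.v k) * T.v l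

theorem H_ne (i : Fin m) : T.H i ≠ 0 := T.curv i

theorem der_b (D : Derivation ℂ Om Om) (i : Fin m) (l : Fin (m + 1)) :
    D (T.b i l) = D (x l) + T.τ i * D (T.v l) + D (T.τ i) * T.v l := by
  unfold b
  rw [map_add, Derivation.leibniz, smul_eq_mul, smul_eq_mul]
  ring

/-- first order relation -/
theorem der_on (D : Derivation ℂ Om Om) (i : Fin m) :
    ∑ l, aeval (T.b i) (pderiv l f) * D (x l) +
      T.τ i * ∑ l, aeval (T.b i) (pderiv l f) * D (T.v l) = 0 := by
  have h := der_aeval D (T.b i) f
  rw [T.on', map_zero] at h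
  have h1 : ∑ l, aeval (T.b i) (pderiv l f) * D (T.b i l) =
      (∑ l, aeval (T.b i) (pderiv l f) * D (x l) +
      T.τ i * ∑ l, aeval (T.b i) (pderiv l f) * D (T.v l)) +
      D (T.τ i) * ∑ l, aeval (T.b i) (pderiv l f) * T.v l := by
    rw [Finset.mul_sum, Finset.mul_sum, ← Finset.sum_add_distrib, ← Finset.sum_add_distrib]
    refine Finset.sum_congr rfl fun l _ => ?_
    rw [T.der_b]
    ring
  rw [h1, T.tan', mul_zero, add_zero] at h
  exact h.symm

/-- second order relation -/
theorem der_tan (D : Derivation ℂ Om Om) (i : Fin m) :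
    ∑ l, (∑ k, aeval (T.b i) (pderiv k (pderiv l f)) * D (T.b i k)) * T.v l +
      ∑ l, aeval (T.b i) (pderiv l f) * D (T.v l) = 0 := by
  have h := congrArg D (T.tan' i)
  rw [map_zero, map_sum] at h
  rw [← Finset.sum_add_distrib, ← h]
  refine Finset.sum_congr rfl fun l _ => ?_
  rw [Derivation.leibniz, smul_eq_mul, smul_eq_mul, der_aeval D (T.b i) (pderiv l f)]
  ring

theorem der_v0 (D : Derivation ℂ Om Om) : D (T.v j0) = 0 := by
  rw [T.v0, ← map_one (algebraMap ℂ Om), Derivation.map_algebraMap]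

/-- (C1) the direction is constant along the line -/
theorem D_v (D : Derivation ℂ Om Om) (hD : ∀ l, D (x l) = T.v l) : ∀ l, D (T.v l) = 0 := by
  have h : (fun l => D (T.v l)) = 0 := by
    refine T.nd _ (T.der_v0 D) fun i => ?_
    have h1 := T.der_on D i
    have h2 : ∑ l, aeval (T.b i) (pderiv l f) * D (x l) = 0 := by
      rw [← T.tan' i]
      exact Finset.sum_congr rfl fun l _ => by rw [hD]
    rw [h2, zero_add] at h1
    exact (mul_eq_zero.1 h1).resolve_left (T.τ0 i)
  exact fun l => congrFun h l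

theorem D_τ (D : Derivation ℂ Om Om) (hD : ∀ l, D (x l) = T.v l) : ∀ i, D (T.τ i) = -1 := by
  intro i
  have h1 := T.der_tan D i
  have hv := T.D_v D hD
  have h2 : ∑ l, aeval (T.b i) (pderiv l f) * D (T.v l) = 0 :=
    Finset.sum_eq_zero fun l _ => by rw [hv, mul_zero]
  rw [h2, add_zero] at h1
  have h3 : ∑ l, (∑ k, aeval (T.b i) (pderiv k (pderiv l f)) * D (T.b i k)) * T.v l =
      (1 + D (T.τ i)) * T.H i := by
    unfold H
    rw [Finset.mul_sum]
    refine Finset.sum_congr rfl fun l _ => ?_
    rw [← mul_assoc, Finset.mul_sum]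
    congr 1
    refine Finset.sum_congr rfl fun k _ => ?_
    rw [T.der_b, hD, hv]
    ring
  rw [h3] at h1
  have h4 := (mul_eq_zero.1 h1).resolve_right (T.H_ne i)
  linear_combination h4

theorem D_b (D : Derivation ℂ Om Om) (hD : ∀ l, D (x l) = T.v l) (i : Fin m) (l : Fin (m + 1)) :
    D (T.b i l) = 0 := by
  rw [T.der_b, hD, T.D_v D hD, T.D_τ D hD]
  ring

/-- (C2) dual vectors of the gradients -/
theorem exists_dual : ∃ e : Fin m → Fin (m + 1) → Om, (∀ i, e i j0 = 0) ∧
    ∀ i i', ∑ l, aeval (T.b i') (pderiv l f) * e i l = if i = i' then 1 else 0 := by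
  classical
  let V : Submodule Om (Fin (m + 1) → Om) := LinearMap.ker (LinearMap.proj (R := Om) (φ := fun _ => Om) j0)
  let G : (Fin (m + 1) → Om) →ₗ[Om] (Fin m → Om) :=
    LinearMap.pi fun i => ∑ l, (aeval (T.b i) (pderiv l f)) • LinearMap.proj (R := Om) (φ := fun _ => Om) l
  have hG : ∀ d i, G d i = ∑ l, aeval (T.b i) (pderiv l f) * d l := by
    intro d i
    simp [G, LinearMap.sum_apply]
  let G' : V →ₗ[Om] (Fin m → Om) := G.comp V.subtype
  have hinj : Function.Injective G' := by
    rw [← LinearMap.ker_eq_bot, LinearMap.ker_eq_bot']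
    intro d hd
    apply Subtype.ext
    refine T.nd d.1 (LinearMap.mem_ker.1 d.2) fun i => ?_
    have := congrFun hd i
    change G d.1 i = 0 at this
    rw [hG] at this
    exact this
  have hdim : Module.finrank Om V = Module.finrank Om (Fin m → Om) := by
    have h1 := LinearMap.finrank_range_add_finrank_ker
      (LinearMap.proj (R := Om) (φ := fun _ : Fin (m + 1) => Om) j0)
    have h2 : LinearMap.range (LinearMap.proj (R := Om) (φ := fun _ : Fin (m + 1) => Om) j0) = ⊤ :=
      LinearMap.range_eq_top.2 (LinearMap.proj_surjective j0)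
    rw [h2, finrank_top, Module.finrank_self, Module.finrank_fin_fun] at h1
    rw [Module.finrank_fin_fun]
    change Module.finrank Om (LinearMap.ker _) = m
    omega
  have hsurj : Function.Surjective G' :=
    (LinearMap.injective_iff_surjective_of_finrank_eq_finrank hdim).1 hinj
  choose e he using fun i : Fin m => hsurj (Pi.single i 1)
  refine ⟨fun i => (e i).1, fun i => LinearMap.mem_ker.1 (e i).2, fun i i' => ?_⟩
  rw [← hG]
  have h := congrFun (he i) i'
  rw [show G (e i).1 i' = G' (e i) i' from rfl, h, Pi.single_apply]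
  by_cases h2 : i' = i
  · rw [if_pos h2, if_pos h2.symm]
  · rw [if_neg h2, if_neg (Ne.symm h2)]

/-- (C2) the derivation which moves the point of tangency `i` along the line -/
theorem E_v {e : Fin m → Fin (m + 1) → Om} (he0 : ∀ i, e i j0 = 0)
    (he : ∀ i i', ∑ l, aeval (T.b i') (pderiv l f) * e i l = if i = i' then 1 else 0)
    (i : Fin m) (E : Derivation ℂ Om Om) (hE : ∀ l, E (x l) = e i l) :
    ∀ l, E (T.v l) = - (e i l / T.τ i) := by
  have h : (fun l => E (T.v l) + e i l / T.τ i) = 0 := by
    refine T.nd _ ?_ fun i' => ?_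
    · change E (T.v j0) + e i j0 / T.τ i = 0
      rw [T.der_v0, he0, zero_div, add_zero]
    · have h1 := T.der_on E i'
      have h2 : ∑ l, aeval (T.b i') (pderiv l f) * E (x l) = if i = i' then 1 else 0 := by
        rw [← he]
        exact Finset.sum_congr rfl fun l _ => by rw [hE]
      rw [h2] at h1
      change ∑ l, aeval (T.b i') (pderiv l f) * (E (T.v l) + e i l / T.τ i) = 0
      have h3 : ∑ l, aeval (T.b i') (pderiv l f) * (E (T.v l) + e i l / T.τ i) =
          ∑ l, aeval (T.b i') (pderiv l f) * E (T.v l) +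
            (∑ l, aeval (T.b i') (pderiv l f) * e i l) / T.τ i := by
        rw [Finset.sum_div, ← Finset.sum_add_distrib]
        exact Finset.sum_congr rfl fun l _ => by ring
      rw [h3, he]
      have h0 := T.τ0 i
      by_cases hi : i = i'
      · subst hi
        rw [if_pos rfl] at h1 ⊢
        field_simp
        linear_combination h1
      · rw [if_neg hi, zero_add] at h1
        rw [if_neg hi, zero_div, add_zero]
        exact (mul_eq_zero.1 h1).resolve_left (T.τ0 i')
  intro l
  have := congrFun h l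
  change E (T.v l) + e i l / T.τ i = 0 at this
  linear_combination this

theorem E_b {e : Fin m → Fin (m + 1) → Om} (he0 : ∀ i, e i j0 = 0)
    (he : ∀ i i', ∑ l, aeval (T.b i') (pderiv l f) * e i l = if i = i' then 1 else 0)
    (i : Fin m) (E : Derivation ℂ Om Om) (hE : ∀ l, E (x l) = e i l) (i' : Fin m)
    (l : Fin (m + 1)) :
    E (T.b i' l) = (1 - T.τ i' / T.τ i) * e i l + E (T.τ i') * T.v l := by
  rw [T.der_b, hE, T.E_v he0 he i E hE]
  ring

theorem E_b_self {e : Fin m → Fin (m + 1) → Om} (he0 : ∀ i, e i j0 = 0)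
    (he : ∀ i i', ∑ l, aeval (T.b i') (pderiv l f) * e i l = if i = i' then 1 else 0)
    (i : Fin m) (E : Derivation ℂ Om Om) (hE : ∀ l, E (x l) = e i l) (l : Fin (m + 1)) :
    E (T.b i l) = E (T.τ i) * T.v l := by
  rw [T.E_b he0 he i E hE, div_self (T.τ0 i)]
  ring

theorem E_τ {e : Fin m → Fin (m + 1) → Om} (he0 : ∀ i, e i j0 = 0)
    (he : ∀ i i', ∑ l, aeval (T.b i') (pderiv l f) * e i l = if i = i' then 1 else 0)
    (i : Fin m) (E : Derivation ℂ Om Om) (hE : ∀ l, E (x l) = e i l) :
    E (T.τ i) * T.H i * T.τ i = 1 := by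
  have h1 := T.der_tan E i
  have h2 : ∑ l, aeval (T.b i) (pderiv l f) * E (T.v l) = - (1 / T.τ i) := by
    have h := he i i
    rw [if_pos rfl] at h
    rw [← h, Finset.sum_div, ← Finset.sum_neg_distrib]
    refine Finset.sum_congr rfl fun l _ => ?_
    rw [T.E_v he0 he i E hE]
    ring
  have h3 : ∑ l, (∑ k, aeval (T.b i) (pderiv k (pderiv l f)) * E (T.b i k)) * T.v l =
      E (T.τ i) * T.H i := by
    unfold H
    rw [Finset.mul_sum]
    refine Finset.sum_congr rfl fun l _ => ?_
    rw [← mul_assoc, Finset.mul_sum]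
    congr 1
    refine Finset.sum_congr rfl fun k _ => ?_
    rw [T.E_b_self he0 he i E hE]
    ring
  rw [h2, h3] at h1
  have h0 := T.τ0 i
  field_simp at h1
  linear_combination h1

theorem E_τ_ne {e : Fin m → Fin (m + 1) → Om} (he0 : ∀ i, e i j0 = 0)
    (he : ∀ i i', ∑ l, aeval (T.b i') (pderiv l f) * e i l = if i = i' then 1 else 0)
    (i : Fin m) (E : Derivation ℂ Om Om) (hE : ∀ l, E (x l) = e i l) : E (T.τ i) ≠ 0 := by
  intro h
  have := T.E_τ he0 he i E hE
  rw [h] at this
  simp at this

end Tang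

end Pool.Agent.CYn
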