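import Pool.Agent.Lib_MP_1209e6_cn.Defs
import Pool.Agent.Lib_MP_1209e6_ag.Der

/-! PIECE DER (helper72): derivations of the field of the tangent line. `exists_derivation` of `ag/Der.lean` gives
for every `e` a derivation with `E (x l) = e l`. -/

set_option autoImplicit false

open MvPolynomial

namespace Pool.Agent.CYn

variable {r : ℕ} {f : MvPolynomial (Fin (r + 1)) ℂ}

/-! ### linear algebra -/

theorem dr_range {L : Type} [Field L] (N : Fin r → Fin (r + 1) → L) (hN : LinearIndependent L N) :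
    LinearMap.range (Matrix.of N).mulVecLin = ⊤ := by
  have h : (Matrix.of N).rank = Fintype.card (Fin r) := LinearIndependent.rank_matrix (by exact hN)
  apply Submodule.eq_top_of_finrank_eq
  rw [Module.finrank_fintype_fun_eq_card]
  exact h

/-- the vectors orthogonal to `r` independent vectors are the multiples of one of them -/
theorem dr_ker {L : Type} [Field L] (N : Fin r → Fin (r + 1) → L) (hN : LinearIndependent L N)
    (v : Fin (r + 1) → L) (hv : v ≠ 0) (hNv : ∀ i, N i ⬝ᵥ v = 0) (y : Fin (r + 1) → L)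
    (hy : ∀ i, N i ⬝ᵥ y = 0) : ∃ c : L, y = c • v := by
  have h1 := LinearMap.finrank_range_add_finrank_ker (Matrix.of N).mulVecLin
  rw [dr_range N hN, finrank_top, Module.finrank_fintype_fun_eq_card,
    Module.finrank_fintype_fun_eq_card, Fintype.card_fin, Fintype.card_fin] at h1
  have h2 : Module.finrank L (LinearMap.ker (Matrix.of N).mulVecLin) = 1 := by omega
  have hv' : v ∈ LinearMap.ker (Matrix.of N).mulVecLin := by
    rw [LinearMap.mem_ker]
    funext i
    exact hNv i
  have hy' : y ∈ LinearMap.ker (Matrix.of N).mulVecLin := by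
    rw [LinearMap.mem_ker]
    funext i
    exact hy i
  have hne : (⟨v, hv'⟩ : LinearMap.ker (Matrix.of N).mulVecLin) ≠ 0 := by
    intro h0
    exact hv (congrArg Subtype.val h0)
  obtain ⟨c, hc⟩ := (finrank_eq_one_iff_of_nonzero' _ hne).1 h2 ⟨y, hy'⟩
  exact ⟨c, (congrArg Subtype.val hc).symm⟩

/-- dual vectors -/
theorem dr_dual {L : Type} [Field L] (N : Fin r → Fin (r + 1) → L) (hN : LinearIndependent L N) :
    ∃ e : Fin r → Fin (r + 1) → L, ∀ m i, N m ⬝ᵥ e i = if m = i then 1 else 0 := by
  have h : ∀ i : Fin r, ∃ y : Fin (r + 1) → L, ∀ m, N m ⬝ᵥ y = if m = i then 1 else 0 := by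
    intro i
    have h1 : (fun m => if m = i then (1 : L) else 0) ∈ LinearMap.range (Matrix.of N).mulVecLin := by
      rw [dr_range N hN]
      trivial
    obtain ⟨y, hy⟩ := h1
    exact ⟨y, fun m => congrFun hy m⟩
  choose e he using h
  exact ⟨e, fun m i => he i m⟩

/-- a covector killing `v` and the dual vectors is zero -/
theorem dr_span {L : Type} [Field L] (N : Fin r → Fin (r + 1) → L) (hN : LinearIndependent L N)
    (v : Fin (r + 1) → L) (hv : v ≠ 0) (hNv : ∀ i, N i ⬝ᵥ v = 0) (e : Fin r → Fin (r + 1) → L)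
    (he : ∀ m i, N m ⬝ᵥ e i = if m = i then 1 else 0) (c : Fin (r + 1) → L) (hc : c ⬝ᵥ v = 0)
    (hce : ∀ i, c ⬝ᵥ e i = 0) : c = 0 := by
  classical
  funext l
  have h1 : ∀ m, N m ⬝ᵥ ((Pi.single l 1 : Fin (r + 1) → L) -
      ∑ i, (N i ⬝ᵥ (Pi.single l 1 : Fin (r + 1) → L)) • e i) = 0 := by
    intro m
    rw [dotProduct_sub, dotProduct_sum]
    have h2 : ∀ i, N m ⬝ᵥ ((N i ⬝ᵥ (Pi.single l 1 : Fin (r + 1) → L)) • e i) =
        if m = i then (N i ⬝ᵥ (Pi.single l 1 : Fin (r + 1) → L)) else 0 := by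
      intro i
      rw [dotProduct_smul, he, smul_eq_mul]
      split_ifs <;> simp
    rw [Finset.sum_congr rfl fun i _ => h2 i, Finset.sum_ite_eq]
    simp
  obtain ⟨s, hs⟩ := dr_ker N hN v hv hNv _ h1
  have h3 : (Pi.single l 1 : Fin (r + 1) → L) =
      s • v + ∑ i, (N i ⬝ᵥ (Pi.single l 1 : Fin (r + 1) → L)) • e i := by
    rw [← hs]
    abel
  have h4 : c ⬝ᵥ (Pi.single l 1 : Fin (r + 1) → L) = 0 := by
    rw [h3, dotProduct_add, dotProduct_smul, hc, dotProduct_sum, smul_zero, zero_add]
    refine Finset.sum_eq_zero fun i _ => ?_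
    rw [dotProduct_smul, hce, smul_zero]
  rw [dotProduct_single, mul_one] at h4
  exact h4

/-! ### the chain rule -/

theorem dr_aeval {ι : Type} [Fintype ι] {L : Type} [Field L] [Algebra ℂ L] (z : ι → L)
    (D : Derivation ℂ L L) (q : MvPolynomial ι ℂ) :
    D (aeval z q) = ∑ j, aeval z (pderiv j q) * D (z j) := by
  classical
  induction q using MvPolynomial.induction_on with
  | C a =>
    simp only [aeval_C, Derivation.map_algebraMap, pderiv_C, map_zero, zero_mul,
      Finset.sum_const_zero]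
  | add p q hp hq =>
    simp only [map_add, hp, hq, add_mul, Finset.sum_add_distrib]
  | mul_X g i hp =>
    rw [map_mul, aeval_X, Derivation.leibniz, hp]
    simp only [smul_eq_mul, pderiv_mul, map_add, map_mul, aeval_X, add_mul,
      Finset.sum_add_distrib]
    have h1 : ∀ j, aeval z (pderiv j (X i : MvPolynomial ι ℂ)) = if j = i then (1 : L) else 0 := by
      intro j
      by_cases h : j = i
      · subst h
        simp
      · rw [if_neg h, pderiv_X_of_ne (fun h' => h h'.symm), map_zero]
    simp only [h1]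
    have h2 : ∑ j, aeval z g * (if j = i then (1 : L) else 0) * D (z j) = aeval z g * D (z i) := by
      rw [Finset.sum_eq_single i]
      · simp
      · intro j _ hj
        simp [hj]
      · simp
    rw [h2, Finset.mul_sum, add_comm]
    congr 1
    refine Finset.sum_congr rfl fun j _ => ?_
    ring

theorem dr_q (F : Fam f) (E : Derivation ℂ F.L F.L) (i : Fin r) (l : Fin (r + 1)) :
    E (F.q i l) = E (F.x l) + F.τ i * E (F.v l) + E (F.τ i) * F.v l := by
  simp only [Fam.q, pt, map_add, Derivation.leibniz, smul_eq_mul]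
  ring

/-- the gradient at a point of tangency -/
noncomputable abbrev dr_N (F : Fam f) (i : Fin r) : Fin (r + 1) → F.L := grad f (F.q i)

theorem dr_Nv (F : Fam f) (i : Fin r) : dr_N F i ⬝ᵥ F.v = 0 := F.tgt.tan i

/-- `f (q_i) = 0` differentiated -/
theorem dr_zero (F : Fam f) (E : Derivation ℂ F.L F.L) (i : Fin r) :
    dr_N F i ⬝ᵥ ((fun l => E (F.x l)) + F.τ i • fun l => E (F.v l)) = 0 := by
  have h := congrArg E (F.tgt.zero i)
  rw [map_zero, dr_aeval] at h
  have h2 : ∑ l, aeval (pt F.x F.v (F.τ i)) (pderiv l f) * E (pt F.x F.v (F.τ i) l) =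
      dr_N F i ⬝ᵥ ((fun l => E (F.x l)) + F.τ i • fun l => E (F.v l)) +
        E (F.τ i) * (dr_N F i ⬝ᵥ F.v) := by
    simp only [dotProduct]
    rw [Finset.mul_sum, ← Finset.sum_add_distrib]
    refine Finset.sum_congr rfl fun l _ => ?_
    have h3 := dr_q F E i l
    simp only [Fam.q] at h3
    rw [h3]
    simp only [grad, Fam.q, Pi.add_apply, Pi.smul_apply, smul_eq_mul]
    ring
  rw [h2, dr_Nv, mul_zero, add_zero] at h
  exact h

/-- `∇f (q_i) · v = 0` differentiated, for a derivation with `E q_i` parallel to `v` -/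
theorem dr_tan (F : Fam f) (E : Derivation ℂ F.L F.L) (i : Fin r) (ρ : F.L)
    (hρ : ∀ l, E (F.q i l) = ρ * F.v l) :
    ρ * hess f (F.q i) F.v + dr_N F i ⬝ᵥ (fun l => E (F.v l)) = 0 := by
  have h := congrArg E (dr_Nv F i)
  rw [map_zero] at h
  rw [← h]
  simp only [dotProduct, map_sum, Derivation.leibniz, smul_eq_mul, Finset.sum_add_distrib]
  rw [add_comm]
  congr 1
  rw [hess, Finset.sum_comm, Finset.mul_sum]
  refine Finset.sum_congr rfl fun l _ => ?_
  simp only [dr_N, grad]
  rw [dr_aeval, Finset.mul_sum, Finset.mul_sum]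
  refine Finset.sum_congr rfl fun m _ => ?_
  rw [hρ]
  ring

/-- a derivation killing `b` and `v` kills the parameters of the points of tangency: they are roots of
`f (b + T v)`, which is not zero at `T = t` -/
theorem dr_const (F : Fam f) (D : Derivation ℂ F.L F.L) (hb : ∀ l, D (F.b l) = 0)
    (hv : ∀ l, D (F.v l) = 0) (i : Fin r) : D (F.a i) = 0 := by
  let F0 : IntermediateField ℂ F.L := IntermediateField.adjoin ℂ (Set.range F.b ∪ Set.range F.v)
  have hk : ∀ y ∈ F0, D y = 0 := by
    intro y hy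
    induction hy using IntermediateField.adjoin_induction with
    | mem y hy =>
      rcases hy with ⟨l, rfl⟩ | ⟨l, rfl⟩
      · exact hb l
      · exact hv l
    | algebraMap c => exact D.map_algebraMap c
    | add x y _ _ hx hy => rw [map_add, hx, hy, add_zero]
    | inv x _ hx => rw [Derivation.leibniz_inv, hx, smul_zero]
    | mul x y _ _ hx hy => rw [Derivation.leibniz, hx, hy, smul_zero, smul_zero, add_zero]
  refine Pool.Agent.Campana.derivation_eq_zero D F0 hk _ ?_
  let b' : Fin (r + 1) → F0 := fun l =>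
    ⟨F.b l, IntermediateField.subset_adjoin ℂ _ (Or.inl ⟨l, rfl⟩)⟩
  let v' : Fin (r + 1) → F0 := fun l =>
    ⟨F.v l, IntermediateField.subset_adjoin ℂ _ (Or.inr ⟨l, rfl⟩)⟩
  let P : Polynomial F0 :=
    aeval (fun l => Polynomial.C (b' l) + Polynomial.X * Polynomial.C (v' l)) f
  have hP : ∀ z : F.L, Polynomial.aeval z P = aeval (pt F.b F.v z) f := by
    intro z
    have h := MvPolynomial.comp_aeval_apply
      (fun l => Polynomial.C (b' l) + Polynomial.X * Polynomial.C (v' l))
      ((Polynomial.aeval z : Polynomial F0 →ₐ[F0] F.L).restrictScalars ℂ) f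
    refine h.trans ?_
    congr 2
    funext l
    change Polynomial.aeval z (Polynomial.C (b' l) + Polynomial.X * Polynomial.C (v' l)) = _
    rw [map_add, map_mul, Polynomial.aeval_C, Polynomial.aeval_X, Polynomial.aeval_C]
    rfl
  refine ⟨P, ?_, ?_⟩
  · intro h0
    have h1 := hP F.t
    rw [h0, map_zero] at h1
    have h2 : pt F.b F.v F.t = F.x := by
      funext l
      rw [F.x_eq]
      rfl
    rw [h2, ← F.hw] at h1
    exact pow_ne_zero 2 F.w_ne h1.symm
  · rw [hP, ← F.q_eq]
    exact F.tgt.zero i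

/-- `D x = v`. Differentiate the equations along `D`, with `d = D v`:
`∇f (q_i) · (τ_i d) = 0` (as `∇f (q_i) · v = 0`), `d j = 0`, so `d = 0` (the gradients and `e_j` span); then
`hess f (q_i) v * s i = 0`. -/
theorem exists_D0 (F : Fam f) : ∃ D : Derivation ℂ F.L F.L, (∀ l, D (F.x l) = F.v l) ∧
    (∀ l, D (F.v l) = 0) ∧ ∀ i, D (F.τ i) = -1 := by
  obtain ⟨D, hD⟩ := Pool.Agent.Campana.exists_derivation F.x F.ind F.v
  have h1 : ∀ i, dr_N F i ⬝ᵥ (fun l => D (F.v l)) = 0 := by
    intro i
    have h := dr_zero F D i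
    have hx : (fun l => D (F.x l)) = F.v := funext hD
    rw [hx, dotProduct_add, dr_Nv, zero_add, dotProduct_smul, smul_eq_mul] at h
    exact (mul_eq_zero.1 h).resolve_left (F.τ_ne i)
  obtain ⟨c, hc⟩ := dr_ker (dr_N F) F.tgt.indep F.v F.tgt.v_ne (dr_Nv F) _ h1
  have hc0 : c = 0 := by
    have h := congrFun hc F.j
    simp only [Pi.smul_apply, smul_eq_mul, F.vj, mul_one, Derivation.map_one_eq_zero] at h
    exact h.symm
  have hv : ∀ l, D (F.v l) = 0 := by
    intro l
    have h := congrFun hc l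
    simpa [hc0] using h
  refine ⟨D, hD, hv, fun i => ?_⟩
  have h2 := dr_const F D (fun l => by
    simp only [Fam.b, map_sub, Derivation.leibniz, hD, hv, F.vj, smul_eq_mul]
    ring) hv i
  simp only [Fam.a, map_add, hD, F.vj] at h2
  linear_combination h2

/-- the dual derivations -/
theorem dr_data (F : Fam f) : ∃ (e : Fin r → Fin (r + 1) → F.L) (E : Fin r → Derivation ℂ F.L F.L)
    (ρ : Fin r → F.L), (∀ m i, dr_N F m ⬝ᵥ e i = if m = i then 1 else 0) ∧
    (∀ i l, E i (F.x l) = e i l) ∧ (∀ i, ρ i ≠ 0) ∧ (∀ i l, E i (F.q i l) = ρ i * F.v l) ∧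
    ∀ m i, ∃ s, ∀ l, E i (F.q m l) = (1 - F.τ m / F.τ i) * e i l + s * F.v l := by
  obtain ⟨e, he⟩ := dr_dual (dr_N F) F.tgt.indep
  have hE : ∀ i, ∃ E : Derivation ℂ F.L F.L, ∀ l, E (F.x l) = e i l := fun i =>
    Pool.Agent.Campana.exists_derivation F.x F.ind (e i)
  choose E hE using hE
  have h1 : ∀ i, ∃ c : F.L, ∀ l, E i (F.v l) = c * F.v l - e i l / F.τ i := by
    intro i
    have h2 : ∀ m, dr_N F m ⬝ᵥ ((fun l => E i (F.v l)) + (F.τ i)⁻¹ • e i) = 0 := by
      intro m
      have h := dr_zero F (E i) m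
      have hx : (fun l => E i (F.x l)) = e i := funext (hE i)
      rw [hx, dotProduct_add, he, dotProduct_smul, smul_eq_mul] at h
      rw [dotProduct_add, dotProduct_smul, he, smul_eq_mul]
      by_cases hmi : m = i
      · subst hmi
        rw [if_pos rfl] at h ⊢
        have := F.τ_ne m
        field_simp
        linear_combination h
      · rw [if_neg hmi] at h ⊢
        rw [zero_add] at h
        rw [(mul_eq_zero.1 h).resolve_left (F.τ_ne m), mul_zero, add_zero]
    obtain ⟨c, hc⟩ := dr_ker (dr_N F) F.tgt.indep F.v F.tgt.v_ne (dr_Nv F) _ h2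
    refine ⟨c, fun l => ?_⟩
    have h3 := congrFun hc l
    simp only [Pi.add_apply, Pi.smul_apply, smul_eq_mul] at h3
    rw [← h3]
    ring
  choose c hc using h1
  have hq : ∀ m i l, E i (F.q m l) = (1 - F.τ m / F.τ i) * e i l +
      (F.τ m * c i + E i (F.τ m)) * F.v l := by
    intro m i l
    rw [dr_q, hE, hc]
    ring
  have hqi : ∀ i l, E i (F.q i l) = (F.τ i * c i + E i (F.τ i)) * F.v l := by
    intro i l
    rw [hq, div_self (F.τ_ne i)]
    ring
  refine ⟨e, E, fun i => F.τ i * c i + E i (F.τ i), he, hE, ?_, hqi, fun m i => ⟨_, hq m i⟩⟩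
  intro i h0
  have h3 := dr_tan F (E i) i _ (hqi i)
  have h0' : F.τ i * c i + E i (F.τ i) = 0 := h0
  rw [h0', zero_mul, zero_add] at h3
  have h4 := dr_zero F (E i) i
  have hx : (fun l => E i (F.x l)) = e i := funext (hE i)
  rw [hx, dotProduct_add, dotProduct_smul, h3, smul_zero, add_zero, he, if_pos rfl] at h4
  exact one_ne_zero h4

/-- `e_i` with `∇f (q_m) · e_i = δ_im` (the gradients are independent), `E i x = e_i`. From
`∇f (q_m) · (E x + τ_m E v) = 0`: `E_i v + e_i / τ_i` is orthogonal to all the gradients, so a multiple of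
`v`; `E_i (q_i) = ρ_i v`, and `∇f (q_i) · v = 0` gives `ρ_i * hess f (q_i) v = 1 / τ_i`. -/
theorem exists_E (F : Fam f) : ∃ (E : Fin r → Derivation ℂ F.L F.L) (ρ : Fin r → F.L),
    (∀ i, ρ i ≠ 0) ∧ (∀ i l, E i (F.q i l) = ρ i * F.v l) ∧
    ∀ c : Fin (r + 1) → F.L, ∑ l, c l * F.v l = 0 → (∀ i, ∑ l, c l * E i (F.x l) = 0) → c = 0 := by
  obtain ⟨e, E, ρ, he, hE, hρ, hq, -⟩ := dr_data F
  refine ⟨E, ρ, hρ, hq, fun c hc hce => ?_⟩
  apply dr_span (dr_N F) F.tgt.indep F.v F.tgt.v_ne (dr_Nv F) e he c hc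
  intro i
  rw [← hce i]
  simp only [dotProduct, hE]

/-- the vectors `E (q_i)` fill the hyperplane orthogonal to the gradient: `E_i (q_i) = ρ_i v`,
`E_m (q_i) = (1 - τ_i / τ_m) e_m` mod `v` -/
theorem rank_q (F : Fam f) (i : Fin r) (c : Fin (r + 1) → F.L)
    (hc : ∀ E : Derivation ℂ F.L F.L, ∑ l, c l * E (F.q i l) = 0) :
    ∃ s : F.L, ∀ l, c l = s * grad f (F.q i) l := by
  obtain ⟨e, E, ρ, he, hE, hρ, hq, hqm⟩ := dr_data F
  have hcv : c ⬝ᵥ F.v = 0 := by
    have h := hc (E i)
    simp only [hq] at h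
    have h2 : ρ i * (c ⬝ᵥ F.v) = 0 := by
      rw [← h, dotProduct, Finset.mul_sum]
      refine Finset.sum_congr rfl fun l _ => ?_
      ring
    exact (mul_eq_zero.1 h2).resolve_left (hρ i)
  have hce : ∀ m, m ≠ i → c ⬝ᵥ e m = 0 := by
    intro m hm
    obtain ⟨s, hs⟩ := hqm i m
    have h := hc (E m)
    simp only [hs] at h
    have h2 : (1 - F.τ i / F.τ m) * (c ⬝ᵥ e m) + s * (c ⬝ᵥ F.v) = 0 := by
      rw [← h]
      simp only [dotProduct]
      rw [Finset.mul_sum, Finset.mul_sum, ← Finset.sum_add_distrib]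
      refine Finset.sum_congr rfl fun l _ => ?_
      ring
    rw [hcv, mul_zero, add_zero] at h2
    refine (mul_eq_zero.1 h2).resolve_left ?_
    intro h0
    have h3 : F.τ i / F.τ m = 1 := by linear_combination -h0
    rw [div_eq_one_iff_eq (F.τ_ne m)] at h3
    exact hm (F.tgt.inj h3.symm)
  refine ⟨c ⬝ᵥ e i, fun l => ?_⟩
  have h := dr_span (dr_N F) F.tgt.indep F.v F.tgt.v_ne (dr_Nv F) e he
    (c - (c ⬝ᵥ e i) • dr_N F i) (by rw [sub_dotProduct, smul_dotProduct, hcv, dr_Nv]; simp) (by
      intro m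
      rw [sub_dotProduct, smul_dotProduct, he]
      by_cases hm : m = i
      · subst hm
        simp
      · rw [hce m hm, if_neg (fun h => hm h.symm)]
        simp)
  have h2 := congrFun h l
  simp only [Pi.sub_apply, Pi.smul_apply, smul_eq_mul, Pi.zero_apply] at h2
  linear_combination h2

/-- Jacobian criterion (a relation of least degree; cf. `algIndep_of_der` in mh/Indep.lean, `indep` in
k3/Rel.lean) -/
theorem indep_of_der {ι : Type} [Fintype ι] {L : Type} [Field L] [Algebra ℂ L] (z : ι → L)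
    (h : ∀ c : ι → L, (∀ E : Derivation ℂ L L, ∑ i, c i * E (z i) = 0) → c = 0) :
    AlgebraicIndependent ℂ z := by
  classical
  rw [algebraicIndependent_iff]
  have key : ∀ (N : ℕ) (q : MvPolynomial ι ℂ), (∀ m ∈ q.support, m.degree < N) →
      aeval z q = 0 → q = 0 := by
    intro N
    induction N with
    | zero =>
      intro q hq _
      rw [← support_eq_empty]
      by_contra hne
      obtain ⟨m, hm⟩ := Finset.nonempty_iff_ne_empty.2 hne
      exact absurd (hq m hm) (Nat.not_lt_zero _)
    | succ N ih =>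
      intro q hq hx
      have hall := h (fun i => aeval z (pderiv i q)) (fun E => by rw [← dr_aeval, hx, map_zero])
      have hpd : ∀ i, pderiv i q = 0 := by
        intro i
        apply ih
        · intro m hm
          rw [mem_support_iff, coeff_pderiv] at hm
          have h1 : m + Finsupp.single i 1 ∈ q.support := by
            rw [mem_support_iff]
            exact fun h0 => hm (by rw [h0, zero_mul])
          have h2 := hq _ h1
          rw [map_add, Finsupp.degree_single] at h2
          omega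
        · exact congrFun hall i
      have hC : q = C (coeff 0 q) := by
        ext m
        rw [coeff_C]
        by_cases hm : 0 = m
        · rw [if_pos hm, hm]
        · rw [if_neg hm]
          obtain ⟨i, hi⟩ : ∃ i, m i ≠ 0 := by
            by_contra hcon
            push Not at hcon
            exact hm (Finsupp.ext fun i => (hcon i).symm)
          have h1 := coeff_pderiv (i := i) q (m - Finsupp.single i 1)
          rw [hpd i, coeff_zero] at h1
          have h2 : m - Finsupp.single i 1 + Finsupp.single i 1 = m := by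
            apply tsub_add_cancel_of_le
            rw [Finsupp.single_le_iff]
            omega
          rw [h2] at h1
          rcases mul_eq_zero.1 h1.symm with h3 | h3
          · exact h3
          · exfalso
            exact Nat.cast_add_one_ne_zero _ h3
      rw [hC] at hx ⊢
      rw [aeval_C, map_eq_zero] at hx
      rw [hx, map_zero]
  intro q hq
  refine key (q.totalDegree + 1) q ?_ hq
  intro m hm
  have := le_totalDegree hm
  rw [Finsupp.degree_eq_sum]
  rw [Finsupp.sum_fintype _ _ (fun _ => rfl)] at this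
  omega

end Pool.Agent.CYn
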