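import Pool.Agent.Lib_MP_1209e6_cn.Calc
import Pool.Agent.Lib_MP_1209e6_cn.Der
import Pool.Agent.Lib_MP_1209e6_cn.Bez

/-! PIECE CONST (helper73): no first integral. -/

set_option autoImplicit false

open MvPolynomial

namespace Pool.Agent.CYn

/-- the field of constants of a derivation -/
def kerField {L : Type} [Field L] [Algebra ℂ L] (D : Derivation ℂ L L) : IntermediateField ℂ L where
  carrier := {a | D a = 0}
  mul_mem' := by
    intro a b ha hb
    show D (a * b) = 0
    rw [D.leibniz, show D a = 0 from ha, show D b = 0 from hb, smul_zero, smul_zero, add_zero]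
  add_mem' := by
    intro a b ha hb
    show D (a + b) = 0
    rw [map_add, show D a = 0 from ha, show D b = 0 from hb, add_zero]
  algebraMap_mem' := fun c => D.map_algebraMap c
  inv_mem' := by
    intro a ha
    show D a⁻¹ = 0
    rw [D.leibniz_inv, show D a = 0 from ha, smul_zero]

theorem mem_kerField {L : Type} [Field L] [Algebra ℂ L] {D : Derivation ℂ L L} {a : L} :
    a ∈ kerField D ↔ D a = 0 := Iff.rfl

/-- an element with `D t = 1` is transcendental over the constants of `D` -/
theorem trans_kerField {L : Type} [Field L] [Algebra ℂ L] (D : Derivation ℂ L L) {t : L}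
    (ht : D t = 1) : Transcendental (kerField D) t := by
  intro h
  have := Pool.Agent.Campana.derivation_eq_zero D (kerField D) (fun a ha => ha) t h
  rw [ht] at this
  exact one_ne_zero this

/-- a relation with constant coefficients at the generic point of the line holds at all its points -/
theorem line_identity {L : Type} [Field L] [Algebra ℂ L] {n : ℕ} (D : Derivation ℂ L L)
    (b v : Fin n → L) (t : L) (hb : ∀ l, D (b l) = 0) (hv : ∀ l, D (v l) = 0) (ht : D t = 1)
    {ι : Type} [Fintype ι] (c : ι → L) (hc : ∀ i, D (c i) = 0) (Q : ι → MvPolynomial (Fin n) ℂ)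
    (h : ∑ i, c i * aeval (pt b v t) (Q i) = 0) (s : L) :
    ∑ i, c i * aeval (pt b v s) (Q i) = 0 := by
  let k := kerField D
  let b' : Fin n → k := fun l => ⟨b l, hb l⟩
  let v' : Fin n → k := fun l => ⟨v l, hv l⟩
  let c' : ι → k := fun i => ⟨c i, hc i⟩
  let line : Fin n → Polynomial k := fun l => Polynomial.C (b' l) + Polynomial.X * Polynomial.C (v' l)
  let P : Polynomial k := ∑ i, Polynomial.C (c' i) * aeval line (Q i)
  have key : ∀ s : L, Polynomial.aeval s P = ∑ i, c i * aeval (pt b v s) (Q i) := by
    intro s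
    have h1 : ((Polynomial.aeval s : Polynomial k →ₐ[k] L).restrictScalars ℂ).comp (aeval line) =
        aeval (pt b v s) := by
      apply MvPolynomial.algHom_ext
      intro l
      simp only [AlgHom.comp_apply, aeval_X, AlgHom.restrictScalars_apply, line, map_add, map_mul,
        Polynomial.aeval_C, Polynomial.aeval_X, pt]
      rfl
    rw [map_sum]
    refine Finset.sum_congr rfl fun i _ => ?_
    rw [map_mul, Polynomial.aeval_C]
    congr 1
    exact DFunLike.congr_fun h1 (Q i)
  have hP : P = 0 := by
    have h2 := (transcendental_iff.1 (trans_kerField D ht)) P (by rw [key]; exact h)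
    exact h2
  rw [← key, hP, map_zero]

/-- an element killed by all derivations is a constant -/
theorem const_of_all {L : Type} [Field L] [Algebra ℂ L] (u : L)
    (h : ∀ E : Derivation ℂ L L, E u = 0) : ∃ c : ℂ, u = algebraMap ℂ L c := by
  have h1 : IsAlgebraic ℂ u := by
    by_contra hu
    have h2 : AlgebraicIndependent ℂ (fun _ : Unit => u) :=
      algebraicIndependent_unique_type_iff.2 hu
    obtain ⟨E, hE⟩ := Pool.Agent.Campana.exists_derivation (fun _ : Unit => u) h2 (fun _ => 1)
    have h3 := hE ()
    rw [h E] at h3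
    exact zero_ne_one h3
  have h3 : IsIntegral ℂ u := h1.isIntegral
  have h4 := IsAlgClosed.degree_eq_one_of_irreducible ℂ (minpoly.irreducible h3)
  obtain ⟨c, hc⟩ := minpoly.mem_range_of_degree_eq_one ℂ u h4
  exact ⟨c, hc.symm⟩

variable {r : ℕ} {f : MvPolynomial (Fin (r + 1)) ℂ}

/-- the points of tangency are generic points of hypersurfaces -/
theorem ne_zero_q (F : Fam f) (i : Fin r) (A C : MvPolynomial (Fin (r + 1)) ℂ)
    (hAC : IsRelPrime A C) (hA : aeval (F.q i) A = 0) (hC : aeval (F.q i) C = 0) : False := by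
  obtain ⟨l, hl⟩ : ∃ l, grad f (F.q i) l ≠ 0 := by
    by_contra hcon
    push Not at hcon
    exact F.tgt.indep.ne_zero i (funext hcon)
  refine bezout_alg A C hAC F.L (F.q i) l (indep_of_der _ fun c hc => ?_) hA hC
  obtain ⟨s, hs⟩ := rank_q F i (fun m => if h : m ≠ l then c ⟨m, h⟩ else 0) (by
    intro E
    rw [← Fintype.sum_subtype_add_sum_subtype (fun m => m ≠ l)]
    have e1 : ∑ m : {m // m ≠ l}, (if h : (m : Fin (r + 1)) ≠ l then c ⟨m, h⟩ else 0) *
        E (F.q i m) = 0 := by
      rw [← hc E]
      refine Finset.sum_congr rfl fun m _ => ?_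
      rw [dif_pos m.2]
    have e2 : ∑ m : {m // ¬ m ≠ l}, (if h : (m : Fin (r + 1)) ≠ l then c ⟨m, h⟩ else 0) *
        E (F.q i m) = 0 := by
      refine Finset.sum_eq_zero fun m _ => ?_
      rw [dif_neg m.2, zero_mul]
    rw [e1, e2, add_zero])
  have h2 := hs l
  rw [dif_neg (by simp)] at h2
  have hs0 : s = 0 := by
    rcases mul_eq_zero.1 h2.symm with h3 | h3
    · exact h3
    · exact absurd h3 hl
  funext m
  have h3 := hs m.1
  rw [dif_pos m.2, hs0, zero_mul] at h3
  exact h3

/-- no first integral -/
theorem const_of_D (F : Fam f) (D : Derivation ℂ F.L F.L) (hD : ∀ l, D (F.x l) = F.v l)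
    (hv : ∀ l, D (F.v l) = 0) (hτ : ∀ i, D (F.τ i) = -1) (u : F.L)
    (hu : u ∈ IntermediateField.adjoin ℂ (Set.range F.x)) (h : D u = 0) :
    ∃ c : ℂ, u = algebraMap ℂ F.L c := by
  obtain ⟨A0, C0, hAC0⟩ := (IntermediateField.mem_adjoin_range_iff ℂ F.x u).1 hu
  by_cases hC00 : C0 = 0
  · refine ⟨0, ?_⟩
    rw [hAC0, hC00, map_zero, div_zero, map_zero]
  obtain ⟨C, A, g, hrel, hCg, hAg⟩ := UniqueFactorizationMonoid.exists_reduced_factors C0 hC00 A0
  have hinj : ∀ P : MvPolynomial (Fin (r + 1)) ℂ, P ≠ 0 → aeval F.x P ≠ 0 := fun P hP h0 =>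
    hP ((algebraicIndependent_iff.1 F.ind) P h0)
  have hg : g ≠ 0 := by
    rintro rfl
    rw [zero_mul] at hCg
    exact hC00 hCg.symm
  have hC : C ≠ 0 := by
    rintro rfl
    rw [mul_zero] at hCg
    exact hC00 hCg.symm
  have hCx := hinj C hC
  have hux : aeval F.x A = u * aeval F.x C := by
    rw [hAC0, ← hCg, ← hAg, map_mul, map_mul]
    field_simp [hinj g hg, hCx]
  -- the line
  have hbD : ∀ l, D (F.b l) = 0 := by
    intro l
    rw [Fam.b, map_sub, D.leibniz, hD, hD, hv, F.vj, smul_zero, smul_eq_mul, mul_one, zero_add,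
      sub_self]
  have htD : D F.t = 1 := by rw [Fam.t, hD, F.vj]
  have hxl : pt F.b F.v F.t = F.x := funext fun l => (F.x_eq l).symm
  -- first identity
  have id1 : ∀ s, aeval (pt F.b F.v s) A = u * aeval (pt F.b F.v s) C := by
    intro s
    have := line_identity D F.b F.v F.t hbD hv htD (ι := Fin 2) ![1, -u]
      (by intro i; fin_cases i; exacts [D.map_one_eq_zero, by simp [h]]) ![A, C]
      (by
        rw [Fin.sum_univ_two, hxl]
        simp [hux]) s
    rw [Fin.sum_univ_two] at this
    simp only [Matrix.cons_val_zero, Matrix.cons_val_one, one_mul, neg_mul] at this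
    linear_combination this
  -- second identity
  have hDx : ∑ l, F.v l * (aeval F.x (pderiv l A) - u * aeval F.x (pderiv l C)) = 0 := by
    have h1 := congrArg D hux
    rw [D.leibniz, h, smul_zero, add_zero, der_aeval, der_aeval, smul_eq_mul, Finset.mul_sum] at h1
    simp only [hD] at h1
    calc _ = ∑ l, aeval F.x (pderiv l A) * F.v l - ∑ l, u * (aeval F.x (pderiv l C) * F.v l) := by
          rw [← Finset.sum_sub_distrib]
          exact Finset.sum_congr rfl fun l _ => by ring
      _ = 0 := by rw [h1, sub_self]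
  have id2 : ∀ s, ∑ l, F.v l * (aeval (pt F.b F.v s) (pderiv l A) -
      u * aeval (pt F.b F.v s) (pderiv l C)) = 0 := by
    intro s
    have := line_identity D F.b F.v F.t hbD hv htD (ι := Fin (r + 1) ⊕ Fin (r + 1))
      (Sum.elim F.v fun l => -u * F.v l)
      (by
        rintro (l | l)
        · exact hv l
        · show D (-u * F.v l) = 0
          rw [D.leibniz, hv, map_neg, h, neg_zero, smul_zero, smul_zero, add_zero])
      (Sum.elim (fun l => pderiv l A) fun l => pderiv l C)
      (by
        rw [Fintype.sum_sum_type, hxl]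
        simp only [Sum.elim_inl, Sum.elim_inr]
        rw [← hDx, ← Finset.sum_add_distrib]
        exact Finset.sum_congr rfl fun l _ => by ring) s
    rw [Fintype.sum_sum_type] at this
    simp only [Sum.elim_inl, Sum.elim_inr] at this
    rw [← this, ← Finset.sum_add_distrib]
    exact Finset.sum_congr rfl fun l _ => by ring
  obtain ⟨E, ρ, hρ, hE, hspan⟩ := exists_E F
  -- the derivations `E i` kill `u`
  have hEu : ∀ i, E i u = 0 := by
    intro i
    have h1 := id1 (F.a i)
    rw [← F.q_eq] at h1
    have h2 := id2 (F.a i)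
    rw [← F.q_eq] at h2
    have h3 := congrArg (E i) h1
    rw [Derivation.leibniz, der_aeval, der_aeval, smul_eq_mul, smul_eq_mul] at h3
    simp only [hE] at h3
    have h4 : aeval (F.q i) C * E i u = ρ i * ∑ l, F.v l * (aeval (F.q i) (pderiv l A) -
        u * aeval (F.q i) (pderiv l C)) := by
      have h5 : ρ i * ∑ l, F.v l * (aeval (F.q i) (pderiv l A) -
          u * aeval (F.q i) (pderiv l C)) =
          ∑ l, aeval (F.q i) (pderiv l A) * (ρ i * F.v l) -
            u * ∑ l, aeval (F.q i) (pderiv l C) * (ρ i * F.v l) := by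
        rw [Finset.mul_sum, Finset.mul_sum, ← Finset.sum_sub_distrib]
        exact Finset.sum_congr rfl fun l _ => by ring
      rw [h5, h3]
      ring
    rw [h2, mul_zero] at h4
    rcases mul_eq_zero.1 h4 with h5 | h5
    · exfalso
      rw [h5, mul_zero] at h1
      exact ne_zero_q F i A C hrel.symm h1 h5
    · exact h5
  -- all derivations kill `u`
  have hall : ∀ G : Derivation ℂ F.L F.L, aeval F.x C * G u =
      ∑ l, (aeval F.x (pderiv l A) - u * aeval F.x (pderiv l C)) * G (F.x l) := by
    intro G
    have h1 := congrArg G hux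
    rw [G.leibniz, der_aeval, der_aeval, smul_eq_mul, smul_eq_mul, Finset.mul_sum] at h1
    have h2 : ∑ l, (aeval F.x (pderiv l A) - u * aeval F.x (pderiv l C)) * G (F.x l) =
        ∑ l, aeval F.x (pderiv l A) * G (F.x l) - ∑ l, u * (aeval F.x (pderiv l C) * G (F.x l)) := by
      rw [← Finset.sum_sub_distrib]
      exact Finset.sum_congr rfl fun l _ => by ring
    rw [h2, h1]
    ring
  have hc0 := hspan (fun l => aeval F.x (pderiv l A) - u * aeval F.x (pderiv l C))
    (by
      rw [← hDx]
      exact Finset.sum_congr rfl fun l _ => by ring)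
    (fun i => by rw [← hall, hEu, mul_zero])
  refine const_of_all u fun G => ?_
  have h1 := hall G
  have h2 : ∀ l, aeval F.x (pderiv l A) - u * aeval F.x (pderiv l C) = 0 := fun l =>
    congrFun hc0 l
  simp only [h2, zero_mul, Finset.sum_const_zero] at h1
  exact (mul_eq_zero.1 h1).resolve_left hCx

end Pool.Agent.CYn
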