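import Mathlib

/-!
# `MP_1209e6_ag`, CYn: double covers of `ℙⁿ` with a nondegenerate multiple tangent line

Board note 2938 (helper73). `n = r + 1`, the lines are tangent to the branch divisor `f = 0` in `r` points.
-/

set_option autoImplicit false

open MvPolynomial

noncomputable section

namespace Pool.Agent.CYn

/-- the point `p + a v` -/
def pt {A : Type} [CommRing A] {n : ℕ} (p v : Fin n → A) (a : A) (l : Fin n) : A := p l + a * v l

/-- the gradient of `f` at the point `b` -/
def grad {A : Type} [CommRing A] [Algebra ℂ A] {n : ℕ} (f : MvPolynomial (Fin n) ℂ) (b : Fin n → A)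
    (l : Fin n) : A := aeval b (pderiv l f)

/-- the second derivative of `f` at the point `b` in the direction `v` -/
def hess {A : Type} [CommRing A] [Algebra ℂ A] {n : ℕ} (f : MvPolynomial (Fin n) ℂ) (b v : Fin n → A) :
    A := ∑ l, ∑ m, aeval b (pderiv l (pderiv m f)) * (v l * v m)

/-- the line `p + A v` is tangent to `f = 0` at the `r` different points `p + a i v`, with linearly
independent gradients -/
structure IsTan {A : Type} [Field A] [Algebra ℂ A] {n r : ℕ} (f : MvPolynomial (Fin n) ℂ)
    (p v : Fin n → A) (a : Fin r → A) : Prop where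
  v_ne : v ≠ 0
  inj : Function.Injective a
  zero : ∀ i, aeval (pt p v (a i)) f = 0
  tan : ∀ i, ∑ l, grad f (pt p v (a i)) l * v l = 0
  indep : LinearIndependent A fun i => grad f (pt p v (a i))

/-- nondegenerate tangent line: moreover the second derivatives are not zero -/
structure IsTangent {A : Type} [Field A] [Algebra ℂ A] {n r : ℕ} (f : MvPolynomial (Fin n) ℂ)
    (p v : Fin n → A) (a : Fin r → A) : Prop extends IsTan f p v a where
  hess_ne : ∀ i, hess f (pt p v (a i)) v ≠ 0

/-- The `r`-fold tangent line `x + A v` through the generic point `x` of affine space, and the square root `w`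
of `f (x)`; `L` is the field generated by `x`, `v`, `τ`, `w`. -/
structure Fam {r : ℕ} (f : MvPolynomial (Fin (r + 1)) ℂ) where
  L : Type
  [fL : Field L]
  [aL : Algebra ℂ L]
  x : Fin (r + 1) → L
  v : Fin (r + 1) → L
  τ : Fin r → L
  w : L
  j : Fin (r + 1)
  ind : AlgebraicIndependent ℂ x
  alg : Algebra.IsAlgebraic (IntermediateField.adjoin ℂ (Set.range x)) L
  f_ne : f ≠ 0
  gen : IntermediateField.adjoin ℂ (Set.range x ∪ Set.range v ∪ Set.range τ ∪ {w}) = ⊤
  tgt : IsTan f x v τ
  τ_ne : ∀ i, τ i ≠ 0
  vj : v j = 1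
  hw : w ^ 2 = aeval x f
  w_ne : w ≠ 0

attribute [instance] Fam.fL Fam.aL

namespace Fam

variable {r : ℕ} {f : MvPolynomial (Fin (r + 1)) ℂ} (F : Fam f)

/-- the parameter of the generic point on its line -/
def t : F.L := F.x F.j

/-- the point of the line with parameter `0` -/
def b (l : Fin (r + 1)) : F.L := F.x l - F.x F.j * F.v l

/-- the parameters of the points of tangency -/
def a (i : Fin r) : F.L := F.x F.j + F.τ i

/-- the points of tangency -/
def q (i : Fin r) : Fin (r + 1) → F.L := pt F.x F.v (F.τ i)

/-- the base field of the family -/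
def k : IntermediateField ℂ F.L :=
  IntermediateField.adjoin ℂ (Set.range F.b ∪ Set.range F.v ∪ Set.range F.a)

/-- the second coordinate of the curve of genus one -/
def y : F.L := F.w / ∏ i, (F.t - F.a i)

theorem q_eq (i : Fin r) : F.q i = pt F.b F.v (F.a i) := by
  funext l
  simp only [q, pt, b, a]
  ring

theorem t_sub_a (i : Fin r) : F.t - F.a i = - F.τ i := by
  simp only [t, a]
  ring

theorem x_eq (l : Fin (r + 1)) : F.x l = F.b l + F.t * F.v l := by
  simp only [b, t]
  ring

end Fam

/-- `K = ℂ(z)(w)`, `w² = f(z)`: the function field of the double cover of affine space branched in `f = 0` -/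
def IsDoubleCover (K : Type) [Field K] [Algebra ℂ K] {n : ℕ} (f : MvPolynomial (Fin n) ℂ) : Prop :=
  ∃ (z : Fin n → K) (w : K), AlgebraicIndependent ℂ z ∧ w ^ 2 = aeval z f ∧
    IntermediateField.adjoin ℂ (Set.range z ∪ {w}) = ⊤

end Pool.Agent.CYn
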