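import Pool.Agent.Lib_MP_1209e6_cn.Defs
import Pool.Agent.Lib_MP_1209e6_dp.Embed

/-! PIECE EMBED (helper37): `K = ℂ(z, w)` embeds in the field of the family in two conjugate ways, and the
extension is finite. General form: `embed_gen`, `finite_gen`. -/

set_option autoImplicit false

open MvPolynomial

namespace Pool.Agent.CYn

/-- two conjugate embeddings of `ℂ(z)(w)`, `w² = f(z)` -/
theorem embed_gen {n : ℕ} (f : MvPolynomial (Fin n) ℂ) {K L : Type} [Field K] [Algebra ℂ K]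
    [Field L] [Algebra ℂ L] (z : Fin n → K) (w : K) (hz : AlgebraicIndependent ℂ z)
    (hw : w ^ 2 = aeval z f) (hgen : IntermediateField.adjoin ℂ (Set.range z ∪ {w}) = ⊤)
    (x : Fin n → L) (hz' : AlgebraicIndependent ℂ x) (s : L) (hs : s ^ 2 = aeval x f) :
    ∃ ι₁ ι₂ : K →ₐ[ℂ] L, (∀ j, ι₁ (z j) = x j) ∧ (∀ j, ι₂ (z j) = x j) ∧
      ∀ u, ι₁ u + ι₂ u ∈ IntermediateField.adjoin ℂ (Set.range x) ∧
        ι₁ u * ι₂ u ∈ IntermediateField.adjoin ℂ (Set.range x) := by
  classical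
  set K₀ := IntermediateField.adjoin ℂ (Set.range z) with hK₀
  set M₀ := IntermediateField.adjoin ℂ (Set.range x) with hM₀
  let e : K₀ ≃ₐ[ℂ] M₀ := hz.aevalEquivField.symm.trans hz'.aevalEquivField
  let φ : K₀ →ₐ[ℂ] L := M₀.val.comp e.toAlgHom
  have hφM : ∀ a, φ a ∈ M₀ := fun a => (e a).2
  have hφp : ∀ (p : MvPolynomial (Fin n) ℂ) (h : aeval z p ∈ K₀), φ ⟨aeval z p, h⟩ = aeval x p := by
    intro p h
    have h1 : hz.aevalEquivField (algebraMap _ _ p) = (⟨aeval z p, h⟩ : K₀) := by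
      apply Subtype.ext
      exact hz.aevalEquivField_algebraMap_apply_coe p
    have h2 : e ⟨aeval z p, h⟩ = hz'.aevalEquivField (algebraMap _ _ p) := by
      change hz'.aevalEquivField (hz.aevalEquivField.symm ⟨aeval z p, h⟩) = _
      rw [← h1, AlgEquiv.symm_apply_apply]
    change ((e ⟨aeval z p, h⟩ : M₀) : L) = _
    rw [h2]
    exact hz'.aevalEquivField_algebraMap_apply_coe p
  have hzK : ∀ j, z j ∈ K₀ := fun j => IntermediateField.subset_adjoin _ _ ⟨j, rfl⟩
  have hφz : ∀ j, φ ⟨z j, hzK j⟩ = x j := by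
    intro j
    have := hφp (X j) (by rw [aeval_X]; exact hzK j)
    simpa only [aeval_X] using this
  have hpK : ∀ p : MvPolynomial (Fin n) ℂ, aeval z p ∈ K₀ := by
    intro p
    have h1 := (hz.aevalEquivField (algebraMap _ _ p)).2
    rw [hz.aevalEquivField_algebraMap_apply_coe p] at h1
    exact h1
  have hw2 : w ^ 2 ∈ K₀ := by rw [hw]; exact hpK f
  have hgen' : IntermediateField.adjoin ℂ ((K₀ : Set K) ∪ {w}) = ⊤ := by
    rw [eq_top_iff, ← hgen]
    refine IntermediateField.adjoin.mono ℂ _ _ (Set.union_subset_union_left _ ?_)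
    exact IntermediateField.subset_adjoin _ _
  by_cases hwK : w ∈ K₀
  · have htop : K₀ = ⊤ := by
      rw [eq_top_iff, ← hgen', IntermediateField.adjoin_le_iff]
      rintro y (hy | hy)
      · exact hy
      · rw [Set.mem_singleton_iff] at hy
        rw [hy]
        exact hwK
    have hall : ∀ u : K, u ∈ K₀ := fun u => by rw [htop]; trivial
    let j : K →ₐ[ℂ] K₀ := (AlgHom.id ℂ K).codRestrict K₀.toSubalgebra hall
    refine ⟨φ.comp j, φ.comp j, fun i => hφz i, fun i => hφz i, fun u => ⟨?_, ?_⟩⟩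
    · exact M₀.add_mem (hφM _) (hφM _)
    · exact M₀.mul_mem (hφM _) (hφM _)
  · have hsq : s ^ 2 = φ ⟨w ^ 2, hw2⟩ := by
      rw [hs, ← hφp f (hpK f)]
      congr 1
      apply Subtype.ext
      exact hw.symm
    obtain ⟨ι₁, h1, h1w⟩ := DP.emb_lift K₀ w hwK hw2 hgen' φ s hsq
    obtain ⟨ι₂, h2, h2w⟩ := DP.emb_lift K₀ w hwK hw2 hgen' φ (-s) (by rw [neg_sq]; exact hsq)
    refine ⟨ι₁, ι₂, fun i => (h1 ⟨z i, hzK i⟩).trans (hφz i), fun i => (h2 ⟨z i, hzK i⟩).trans (hφz i),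
      fun u => ?_⟩
    obtain ⟨a, ha, b, hb, rfl⟩ := DP.emb_two K₀ w hw2 hgen' u
    have e1 : ι₁ (a + b * w) = φ ⟨a, ha⟩ + φ ⟨b, hb⟩ * s := by
      rw [map_add, map_mul, h1w, ← h1 ⟨a, ha⟩, ← h1 ⟨b, hb⟩]
    have e2 : ι₂ (a + b * w) = φ ⟨a, ha⟩ - φ ⟨b, hb⟩ * s := by
      rw [map_add, map_mul, h2w, ← h2 ⟨a, ha⟩, ← h2 ⟨b, hb⟩]
      ring
    constructor
    · have : ι₁ (a + b * w) + ι₂ (a + b * w) = φ ⟨a, ha⟩ + φ ⟨a, ha⟩ := by rw [e1, e2]; ring
      rw [this]
      exact M₀.add_mem (hφM _) (hφM _)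
    · have : ι₁ (a + b * w) * ι₂ (a + b * w)
          = φ ⟨a, ha⟩ ^ 2 - φ ⟨b, hb⟩ ^ 2 * φ ⟨w ^ 2, hw2⟩ := by rw [e1, e2, ← hsq]; ring
      rw [this]
      exact M₀.sub_mem (pow_mem (hφM _) 2) (M₀.mul_mem (pow_mem (hφM _) 2) (hφM _))

/-- a finitely generated field, algebraic over `ℂ(x)`, is finite over every field containing `ℂ(x)` -/
theorem finite_gen {n : ℕ} {K L : Type} [Field K] [Algebra ℂ K] [Field L] [Algebra ℂ L]
    (z : Fin n → K) (i : K →ₐ[ℂ] L) (x : Fin n → L) (hi : ∀ j, i (z j) = x j)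
    (halg : Algebra.IsAlgebraic (IntermediateField.adjoin ℂ (Set.range x)) L)
    (S : Set L) (hS : S.Finite) (hgen : IntermediateField.adjoin ℂ S = ⊤) :
    @Module.Finite K L _ _ (i.toRingHom.toAlgebra).toModule := by
  letI : Algebra K L := i.toRingHom.toAlgebra
  haveI : IsScalarTower ℂ K L := IsScalarTower.of_algebraMap_eq fun c => (i.commutes c).symm
  change Module.Finite K L
  let E := IntermediateField.adjoin ℂ (Set.range x)
  have hle : E ≤ i.fieldRange := by
    rw [IntermediateField.adjoin_le_iff]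
    rintro _ ⟨j, rfl⟩
    exact ⟨z j, hi j⟩
  obtain ⟨φ, hφ⟩ : ∃ φ : E →+* K, ∀ c : E, algebraMap K L (φ c) = c := by
    refine ⟨(i.equivFieldRange.symm : i.fieldRange →+* K).comp
      (IntermediateField.inclusion hle : E →+* i.fieldRange), fun c => ?_⟩
    exact congrArg Subtype.val
      (i.equivFieldRange.apply_symm_apply (IntermediateField.inclusion hle c))
  have hint : ∀ a : L, IsIntegral K a := by
    intro a
    obtain ⟨p, hp0, hp⟩ := (halg.isAlgebraic a : IsAlgebraic E a)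
    refine IsAlgebraic.isIntegral ⟨p.map φ, ?_, ?_⟩
    · rwa [Ne, Polynomial.map_eq_zero_iff φ.injective]
    · rw [Polynomial.aeval_def, Polynomial.eval₂_map]
      have hc : (algebraMap K L).comp φ = algebraMap E L := RingHom.ext hφ
      rw [hc]
      exact hp
  have hS' : Finite S := hS
  have h1 : FiniteDimensional K (IntermediateField.adjoin K S) :=
    IntermediateField.finiteDimensional_adjoin fun a _ => hint a
  have h2 : IntermediateField.adjoin K S = ⊤ := by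
    rw [eq_top_iff]
    intro a _
    have h3 : IntermediateField.adjoin ℂ S ≤ (IntermediateField.adjoin K S).restrictScalars ℂ := by
      rw [IntermediateField.adjoin_le_iff]
      exact IntermediateField.subset_adjoin K S
    exact h3 (by rw [hgen]; exact IntermediateField.mem_top)
  rw [h2] at h1
  exact IntermediateField.topEquiv.toLinearEquiv.finiteDimensional

variable {r : ℕ} {f : MvPolynomial (Fin (r + 1)) ℂ}

theorem exists_embed (F : Fam f) {K : Type} [Field K] [Algebra ℂ K] (z : Fin (r + 1) → K) (w : K)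
    (hz : AlgebraicIndependent ℂ z) (hw : w ^ 2 = aeval z f)
    (hgen : IntermediateField.adjoin ℂ (Set.range z ∪ {w}) = ⊤) :
    ∃ ι₁ ι₂ : K →ₐ[ℂ] F.L, (∀ l, ι₁ (z l) = F.x l) ∧ (∀ l, ι₂ (z l) = F.x l) ∧
      ∀ u, ι₁ u + ι₂ u ∈ IntermediateField.adjoin ℂ (Set.range F.x) ∧
        ι₁ u * ι₂ u ∈ IntermediateField.adjoin ℂ (Set.range F.x) :=
  embed_gen f z w hz hw hgen F.x F.ind F.w F.hw

theorem finite_embed (F : Fam f) {K : Type} [Field K] [Algebra ℂ K] (z : Fin (r + 1) → K)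
    (i : K →ₐ[ℂ] F.L) (h : ∀ l, i (z l) = F.x l) :
    @Module.Finite K F.L _ _ (i.toRingHom.toAlgebra).toModule :=
  finite_gen z i F.x h F.alg _ ((((Set.finite_range F.x).union (Set.finite_range F.v)).union
    (Set.finite_range F.τ)).union (Set.finite_singleton F.w)) F.gen

end Pool.Agent.CYn
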