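import Pool.Agent.Lib_MP_1209e6_cn.Defs

/-! PIECE QUOT (helper37): the restriction of `f` to the tangent line. -/

set_option autoImplicit false

open MvPolynomial

namespace Pool.Agent.CYn

theorem quot_der {L : Type} [Field L] [Algebra ℂ L] {n : ℕ} (g : Fin n → Polynomial L)
    (f : MvPolynomial (Fin n) ℂ) :
    Polynomial.derivative (aeval g f) =
      ∑ l, aeval g (pderiv l f) * Polynomial.derivative (g l) := by
  classical
  induction f using MvPolynomial.induction_on with
  | C a => simp [Polynomial.algebraMap_apply]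
  | add p q hp hq => simp only [map_add, hp, hq, add_mul, Finset.sum_add_distrib]
  | mul_X p i ih =>
    have h : ∀ l, aeval g (pderiv l (p * X i)) * Polynomial.derivative (g l) =
        aeval g (pderiv l p) * Polynomial.derivative (g l) * g i +
          aeval g p * (if i = l then Polynomial.derivative (g l) else 0) := by
      intro l
      rw [pderiv_mul, pderiv_X, map_add, map_mul, map_mul, aeval_X, Pi.single_apply]
      by_cases hl : i = l
      · rw [if_pos hl, if_pos hl, map_one]; ring
      · rw [if_neg hl, if_neg hl, map_zero]; ring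
    simp only [h, Finset.sum_add_distrib, ← Finset.sum_mul, ← Finset.mul_sum,
      Finset.sum_ite_eq, Finset.mem_univ, if_true]
    rw [map_mul, aeval_X, Polynomial.derivative_mul, ih]

theorem quot_eval {L : Type} [Field L] [Algebra ℂ L] {n : ℕ} (b v : Fin n → L) (a : L)
    (f : MvPolynomial (Fin n) ℂ) :
    (aeval (fun l => Polynomial.C (b l) + Polynomial.X * Polynomial.C (v l)) f :
      Polynomial L).eval a = aeval (pt b v a) f := by
  have h := (MvPolynomial.comp_aeval (R := ℂ)
    (fun l => Polynomial.C (b l) + Polynomial.X * Polynomial.C (v l))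
    ((Polynomial.aeval a : Polynomial L →ₐ[L] L).restrictScalars ℂ))
  have h2 := congrArg (fun φ => φ f) h
  simp only [AlgHom.comp_apply, AlgHom.coe_restrictScalars', Polynomial.coe_aeval_eq_eval] at h2
  rw [h2]
  congr 2
  funext l
  rw [Polynomial.eval_add, Polynomial.eval_mul, Polynomial.eval_C, Polynomial.eval_X,
    Polynomial.eval_C]
  rfl

theorem quot_deg {L : Type} [Field L] [Algebra ℂ L] {n m : ℕ} (b v : Fin n → L)
    (f : MvPolynomial (Fin n) ℂ) (hf : f.totalDegree ≤ m) :
    (aeval (fun l => Polynomial.C (b l) + Polynomial.X * Polynomial.C (v l)) f :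
      Polynomial L).natDegree ≤ m := by
  have h1 : (MvPolynomial.map (algebraMap ℂ L) f).totalDegree ≤ m := by
    rw [totalDegree]
    refine Finset.sup_le fun d hd => ?_
    exact (le_totalDegree (support_map_subset _ _ hd)).trans hf
  have h2 := MvPolynomial.aeval_natDegree_le (n := 1) (MvPolynomial.map (algebraMap ℂ L) f) h1
    (fun l => Polynomial.C (b l) + Polynomial.X * Polynomial.C (v l)) (fun i => by
      refine (Polynomial.natDegree_add_le _ _).trans (max_le ?_ ?_)
      · rw [Polynomial.natDegree_C]; exact Nat.zero_le _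
      · refine (Polynomial.natDegree_mul_le).trans ?_
        rw [Polynomial.natDegree_C]
        exact (add_le_add_left Polynomial.natDegree_X_le _).trans (by norm_num))
  rw [MvPolynomial.aeval_map_algebraMap, mul_one] at h2
  exact h2

/-- `P = f (b + T v) ∈ k[T]`, `natDegree ≤ 2 r + 4`; `P (a_i) = P' (a_i) = 0` and the `a_i` are different, so
`P = (∏ (T - a_i))² q`, `q ∈ k[T]` (division by a monic polynomial of `k[T]`), `natDegree q ≤ 4`; at `T = t`:
`w² = f (x) = (∏ (t - a_i))² q (t)`. -/
theorem exists_q {r : ℕ} {f : MvPolynomial (Fin (r + 1)) ℂ} (F : Fam f)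
    (hdeg : f.totalDegree ≤ 2 * r + 4) :
    ∃ q : Polynomial F.L, (∀ m, q.coeff m ∈ F.k) ∧ q.natDegree ≤ 4 ∧ F.y ^ 2 = q.eval F.t := by
  classical
  have hb : ∀ l, F.b l ∈ F.k := fun l => IntermediateField.subset_adjoin _ _
    (Or.inl (Or.inl ⟨l, rfl⟩))
  have hv : ∀ l, F.v l ∈ F.k := fun l => IntermediateField.subset_adjoin _ _
    (Or.inl (Or.inr ⟨l, rfl⟩))
  have ha : ∀ i, F.a i ∈ F.k := fun i => IntermediateField.subset_adjoin _ _
    (Or.inr ⟨i, rfl⟩)
  set Pk : Polynomial F.k := aeval (fun l => Polynomial.C (⟨F.b l, hb l⟩ : F.k) +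
    Polynomial.X * Polynomial.C (⟨F.v l, hv l⟩ : F.k)) f with hPk
  set P : Polynomial F.L := aeval (fun l => Polynomial.C (F.b l) +
    Polynomial.X * Polynomial.C (F.v l)) f with hP
  have hmap : Pk.map (algebraMap F.k F.L) = P := by
    have h := MvPolynomial.comp_aeval (R := ℂ)
      (fun l => Polynomial.C (⟨F.b l, hb l⟩ : F.k) +
        Polynomial.X * Polynomial.C (⟨F.v l, hv l⟩ : F.k))
      (Polynomial.mapAlgHom F.k.val)
    have h2 := congrArg (fun φ => φ f) h
    simp only [AlgHom.comp_apply, Polynomial.coe_mapAlgHom] at h2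
    rw [hPk, hP]
    refine Eq.trans h2 ?_
    congr 2
    funext l
    simp
  have hPdeg : P.natDegree ≤ 2 * r + 4 := quot_deg _ _ f hdeg
  have hroot : ∀ i, P.eval (F.a i) = 0 := by
    intro i
    rw [hP, quot_eval, ← F.q_eq]
    exact F.tgt.zero i
  have hder : ∀ i, (Polynomial.derivative P).eval (F.a i) = 0 := by
    intro i
    rw [hP, quot_der, Polynomial.eval_finsetSum]
    have := F.tgt.tan i
    rw [← this]
    refine Finset.sum_congr rfl fun l _ => ?_
    rw [Polynomial.eval_mul, quot_eval, ← F.q_eq]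
    simp [grad, Fam.q]
  have hinj : Function.Injective fun i => (⟨F.a i, ha i⟩ : F.k) := by
    intro i i' h
    have h1 : F.a i = F.a i' := congrArg Subtype.val h
    exact F.tgt.inj (add_left_cancel (a := F.x F.j) h1)
  have hdvd : (∏ i, (Polynomial.X - Polynomial.C (⟨F.a i, ha i⟩ : F.k)) ^ 2) ∣ Pk := by
    refine Finset.prod_dvd_of_coprime (fun i _ i' _ hne => ?_) fun i _ => ?_
    · exact (Polynomial.pairwise_coprime_X_sub_C hinj hne).pow
    · by_cases h0 : Pk = 0
      · rw [h0]; exact dvd_zero _
      · rw [← Polynomial.le_rootMultiplicity_iff h0]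
        have hi : Function.Injective (algebraMap F.k F.L) := (algebraMap F.k F.L).injective
        refine (Polynomial.one_lt_rootMultiplicity_iff_isRoot h0).2 ⟨?_, ?_⟩
        · have h1 := hroot i
          rw [← hmap] at h1
          exact Polynomial.IsRoot.of_map (f := algebraMap F.k F.L) h1 hi
        · have h1 := hder i
          rw [← hmap, Polynomial.derivative_map] at h1
          exact Polynomial.IsRoot.of_map (f := algebraMap F.k F.L) h1 hi
  obtain ⟨qk, hqk⟩ := hdvd
  have hG : (∏ i, (Polynomial.X - Polynomial.C (⟨F.a i, ha i⟩ : F.k)) ^ 2).Monic :=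
    Polynomial.monic_prod_of_monic _ _ fun i _ => (Polynomial.monic_X_sub_C _).pow 2
  have hGdeg : (∏ i, (Polynomial.X - Polynomial.C (⟨F.a i, ha i⟩ : F.k)) ^ 2).natDegree =
      2 * r := by
    rw [Polynomial.natDegree_prod_of_monic _ _ fun i _ => (Polynomial.monic_X_sub_C _).pow 2]
    simp [Polynomial.natDegree_pow, mul_comm]
  refine ⟨qk.map (algebraMap F.k F.L), fun m => ?_, ?_, ?_⟩
  · rw [Polynomial.coeff_map]; exact (qk.coeff m).2
  · rw [Polynomial.natDegree_map]
    by_cases h0 : qk = 0
    · rw [h0]; simp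
    · have h1 : Pk.natDegree = 2 * r + qk.natDegree := by
        rw [hqk, hG.natDegree_mul' h0, hGdeg]
      rw [← hmap, Polynomial.natDegree_map] at hPdeg
      omega
  · have h1 : P.eval F.t = F.w ^ 2 := by
      rw [hP, quot_eval, F.hw]
      congr 2
      funext l
      exact (F.x_eq l).symm
    have h2 : P = (∏ i, (Polynomial.X - Polynomial.C (F.a i)) ^ 2) *
        qk.map (algebraMap F.k F.L) := by
      rw [← hmap, hqk, Polynomial.map_mul, Polynomial.map_prod]
      simp
    rw [h2, Polynomial.eval_mul, Polynomial.eval_prod] at h1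
    have h3 : (∏ i, (F.t - F.a i)) ≠ 0 := by
      rw [Finset.prod_ne_zero_iff]
      intro i _
      rw [F.t_sub_a, neg_ne_zero]
      exact F.τ_ne i
    simp only [Polynomial.eval_pow, Polynomial.eval_sub, Polynomial.eval_X, Polynomial.eval_C,
      Finset.prod_pow] at h1
    rw [Fam.y, div_pow, ← h1, mul_div_cancel_left₀ _ (pow_ne_zero 2 h3)]

end Pool.Agent.CYn
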