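import Pool.Agent.Lib_MP_1209e6_cn.Der
import Pool.Agent.Lib_MP_1209e6_cn.Quot
import Pool.Agent.Lib_MP_1209e6_dp.Homog

/-! PIECE HOMFAM (helper72): the family of curves of genus one is almost homogeneous. -/

set_option autoImplicit false

open MvPolynomial Pool.Agent.CampanaFlow

namespace Pool.Agent.CYn

variable {r : ℕ} {f : MvPolynomial (Fin (r + 1)) ℂ}

/-- the derivation of the line kills the base field of the family -/
theorem kills_k (F : Fam f) (D : Derivation ℂ F.L F.L) (hx : ∀ l, D (F.x l) = F.v l)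
    (hv : ∀ l, D (F.v l) = 0) (hτ : ∀ i, D (F.τ i) = -1) (u : F.L) (hu : u ∈ F.k) : D u = 0 := by
  rw [Fam.k] at hu
  induction hu using IntermediateField.adjoin_induction with
  | mem y hy =>
    rcases hy with (⟨l, rfl⟩ | ⟨l, rfl⟩) | ⟨i, rfl⟩
    · simp only [Fam.b, map_sub, Derivation.leibniz, hx, hv, F.vj, smul_eq_mul]
      ring
    · exact hv l
    · simp only [Fam.a, map_add, hx, hτ, F.vj]
      ring
  | algebraMap c => exact D.map_algebraMap c
  | add x y _ _ hx hy => rw [map_add, hx, hy, add_zero]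
  | inv x _ hx => rw [Derivation.leibniz_inv, hx, smul_zero]
  | mul x y _ _ hx hy => rw [Derivation.leibniz, hx, hy, smul_zero, smul_zero, add_zero]

theorem D_t (F : Fam f) (D : Derivation ℂ F.L F.L) (hx : ∀ l, D (F.x l) = F.v l) : D F.t = 1 := by
  rw [Fam.t, hx, F.vj]

theorem t_trans (F : Fam f) : ¬ IsAlgebraic F.k F.t := by
  obtain ⟨D, hx, hv, hτ⟩ := exists_D0 F
  intro h
  have h1 := Pool.Agent.Campana.derivation_eq_zero D F.k (kills_k F D hx hv hτ) F.t h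
  rw [D_t F D hx] at h1
  exact one_ne_zero h1

theorem prod_ne (F : Fam f) : ∏ i, (F.t - F.a i) ≠ 0 := by
  rw [Finset.prod_ne_zero_iff]
  intro i _
  rw [F.t_sub_a]
  exact neg_ne_zero.2 (F.τ_ne i)

theorem y_ne (F : Fam f) : F.y ≠ 0 := div_ne_zero F.w_ne (prod_ne F)

theorem fam_gen (F : Fam f) :
    IntermediateField.adjoin ℂ ((F.k : Set F.L) ∪ {F.t, F.y}) = ⊤ := by
  rw [eq_top_iff, ← F.gen, IntermediateField.adjoin_le_iff]
  have hk : ∀ u ∈ F.k, u ∈ IntermediateField.adjoin ℂ ((F.k : Set F.L) ∪ {F.t, F.y}) := fun u hu =>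
    IntermediateField.subset_adjoin ℂ _ (Or.inl hu)
  have ht : F.t ∈ IntermediateField.adjoin ℂ ((F.k : Set F.L) ∪ {F.t, F.y}) :=
    IntermediateField.subset_adjoin ℂ _ (Or.inr (Or.inl rfl))
  have hy : F.y ∈ IntermediateField.adjoin ℂ ((F.k : Set F.L) ∪ {F.t, F.y}) :=
    IntermediateField.subset_adjoin ℂ _ (Or.inr (Or.inr rfl))
  have hb : ∀ l, F.b l ∈ F.k := fun l =>
    IntermediateField.subset_adjoin ℂ _ (Or.inl (Or.inl ⟨l, rfl⟩))
  have hv : ∀ l, F.v l ∈ F.k := fun l =>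
    IntermediateField.subset_adjoin ℂ _ (Or.inl (Or.inr ⟨l, rfl⟩))
  have ha : ∀ i, F.a i ∈ F.k := fun i => IntermediateField.subset_adjoin ℂ _ (Or.inr ⟨i, rfl⟩)
  rintro u (((⟨l, rfl⟩ | ⟨l, rfl⟩) | ⟨i, rfl⟩) | hu)
  · rw [SetLike.mem_coe, F.x_eq]
    exact add_mem (hk _ (hb l)) (mul_mem ht (hk _ (hv l)))
  · exact hk _ (hv l)
  · have h1 : F.τ i = F.a i - F.t := by
      simp only [Fam.a, Fam.t]
      ring
    rw [SetLike.mem_coe, h1]
    exact sub_mem (hk _ (ha i)) ht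
  · rw [Set.mem_singleton_iff.1 hu, SetLike.mem_coe]
    have h1 : F.w = F.y * ∏ i, (F.t - F.a i) := by
      rw [Fam.y, div_mul_cancel₀ _ (prod_ne F)]
    rw [h1]
    exact mul_mem hy (prod_mem fun i _ => sub_mem ht (hk _ (ha i)))

theorem homog (F : Fam f) (hdeg : f.totalDegree ≤ 2 * r + 4) :
    AlmostHomogeneous F.k (![1, F.t, F.t ^ 2, F.y] : Fin (3 + 1) → F.L) := by
  obtain ⟨q, hq1, hq2, hq3⟩ := exists_q F hdeg
  obtain ⟨D, hx, hv, hτ⟩ := exists_D0 F
  refine (Pool.Agent.DP.homogeneous F.k F.t F.y q hq1 hq2 (t_trans F) hq3 (y_ne F) (fam_gen F)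
    (F.y • D) ?_ ?_).1
  · intro a ha
    rw [Derivation.smul_apply, kills_k F D hx hv hτ a ha, smul_zero]
  · rw [Derivation.smul_apply, D_t F D hx, smul_eq_mul, mul_one]

end Pool.Agent.CYn
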