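import Pool.Agent.Lib_MP_1209e6_cn.Defs
import Pool.Agent.Lib_MP_1209e6_cn.Aift

/-! PIECE SOLVE (helper58; uses `aift` of Aift.lean, helper30): the tangent line through the generic point. -/

set_option autoImplicit false

open MvPolynomial

namespace Pool.Agent.CYn

/-- chain rule for a derivation of a polynomial ring -/
theorem sv_chain {σ A : Type} [CommRing A] [Algebra ℂ A] [Fintype σ] (D : Derivation ℂ A A)
    (y : σ → A) (f : MvPolynomial σ ℂ) : D (aeval y f) = ∑ l, aeval y (pderiv l f) * D (y l) := by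
  classical
  induction f using MvPolynomial.induction_on with
  | C a =>
    rw [← MvPolynomial.algebraMap_eq, AlgHom.commutes, Derivation.map_algebraMap]
    refine (Finset.sum_eq_zero fun l _ => ?_).symm
    rw [MvPolynomial.algebraMap_eq, pderiv_C, map_zero, zero_mul]
  | add p q hp hq =>
    rw [map_add, map_add, hp, hq, ← Finset.sum_add_distrib]
    exact Finset.sum_congr rfl fun l _ => by rw [map_add, map_add, add_mul]
  | mul_X p i hp =>
    rw [map_mul, aeval_X, Derivation.leibniz, hp, smul_eq_mul, smul_eq_mul]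
    have h1 : ∀ l, aeval y (pderiv l (p * X i)) * D (y l) =
        (if l = i then aeval y p * D (y i) else 0) + y i * (aeval y (pderiv l p) * D (y l)) := by
      intro l
      rw [Derivation.leibniz, smul_eq_mul, smul_eq_mul, pderiv_X, map_add, map_mul, map_mul, aeval_X]
      by_cases h : l = i
      · subst h
        rw [if_pos rfl, Pi.single_eq_same, map_one]
        ring
      · rw [if_neg h, Pi.single_eq_of_ne (Ne.symm h), map_zero]
        ring
    rw [Finset.sum_congr rfl fun l _ => h1 l, Finset.sum_add_distrib, Finset.sum_ite_eq' Finset.univ i,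
      if_pos (Finset.mem_univ _), ← Finset.mul_sum]

section

variable (r : ℕ)

/-- the ring of the coordinates `x` and the unknowns `v`, `τ` -/
abbrev SvR : Type := MvPolynomial (Fin (r + 1) ⊕ (Fin (r + 1) ⊕ Fin r)) ℂ

variable {r}

/-- the generic point of tangency -/
noncomputable def svP (i : Fin r) : Fin (r + 1) → SvR r :=
  pt (fun l => X (Sum.inl l)) (fun l => X (Sum.inr (Sum.inl l))) (X (Sum.inr (Sum.inr i)))

/-- the equations -/
noncomputable def svF (f : MvPolynomial (Fin (r + 1)) ℂ) (j : Fin (r + 1)) :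
    Fin (r + 1) ⊕ Fin r → SvR r :=
  Sum.elim (Fin.cons (X (Sum.inr (Sum.inl j)) - 1) fun i => aeval (svP i) f)
    fun i => ∑ l, grad f (svP i) l * X (Sum.inr (Sum.inl l))

theorem sv_pt {A : Type} [CommRing A] [Algebra ℂ A] (x v : Fin (r + 1) → A) (τ : Fin r → A)
    (i : Fin r) (l : Fin (r + 1)) :
    aeval (Sum.elim x (Sum.elim v τ)) (svP i l) = pt x v (τ i) l := by
  simp [svP, pt]

theorem sv_aeval {A : Type} [CommRing A] [Algebra ℂ A] (x v : Fin (r + 1) → A) (τ : Fin r → A)
    (i : Fin r) (g : MvPolynomial (Fin (r + 1)) ℂ) :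
    aeval (Sum.elim x (Sum.elim v τ)) (aeval (svP i) g) = aeval (pt x v (τ i)) g := by
  have h : ((aeval (Sum.elim x (Sum.elim v τ)) : SvR r →ₐ[ℂ] A).comp (aeval (svP i))) =
      aeval (pt x v (τ i)) := by
    apply MvPolynomial.algHom_ext
    intro l
    rw [AlgHom.comp_apply, aeval_X, aeval_X, sv_pt]
  exact DFunLike.congr_fun h g

theorem sv_grad {A : Type} [CommRing A] [Algebra ℂ A] (f : MvPolynomial (Fin (r + 1)) ℂ)
    (x v : Fin (r + 1) → A) (τ : Fin r → A) (i : Fin r) (l : Fin (r + 1)) :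
    aeval (Sum.elim x (Sum.elim v τ)) (grad f (svP i) l) = grad f (pt x v (τ i)) l :=
  sv_aeval x v τ i _

/-- the polynomial matrix with rows `e_j` and the gradients -/
noncomputable def svN {A : Type} [CommRing A] [Algebra ℂ A] (f : MvPolynomial (Fin (r + 1)) ℂ)
    (j : Fin (r + 1)) (b : Fin r → Fin (r + 1) → A) : Matrix (Fin (r + 1)) (Fin (r + 1)) A :=
  Matrix.of (Fin.cons (Pi.single j 1) fun i => grad f (b i))

theorem sv_det {A B : Type} [CommRing A] [Algebra ℂ A] [CommRing B] [Algebra ℂ B]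
    (φ : A →ₐ[ℂ] B) (f : MvPolynomial (Fin (r + 1)) ℂ) (j : Fin (r + 1))
    (b : Fin r → Fin (r + 1) → A) :
    φ (svN f j b).det = (svN f j fun i l => φ (b i l)).det := by
  have h : φ (svN f j b).det = ((φ : A →+* B).mapMatrix (svN f j b)).det := by
    rw [← RingHom.map_det]
    rfl
  rw [h]
  congr 1
  ext a l
  rw [RingHom.mapMatrix_apply, Matrix.map_apply]
  refine Fin.cases ?_ (fun i => ?_) a
  · change φ (Pi.single (M := fun _ => A) j 1 l) = Pi.single (M := fun _ => B) j 1 l
    rw [Pi.single_apply, Pi.single_apply]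
    split_ifs
    · exact map_one φ
    · exact map_zero φ
  · change φ (aeval (b i) (pderiv l f)) = aeval (fun l => φ (b i l)) (pderiv l f)
    exact (MvPolynomial.comp_aeval_apply (b i) φ (pderiv l f))

/-- the matrix is invertible at a nondegenerate tangent line -/
theorem sv_det_ne {A : Type} [Field A] [Algebra ℂ A] (f : MvPolynomial (Fin (r + 1)) ℂ)
    (j : Fin (r + 1)) (b : Fin r → Fin (r + 1) → A) (v : Fin (r + 1) → A) (hv : v j = 1)
    (htan : ∀ i, ∑ l, grad f (b i) l * v l = 0)
    (hind : LinearIndependent A fun i => grad f (b i)) : (svN f j b).det ≠ 0 := by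
  intro h0
  obtain ⟨c, hc, hc0⟩ := Matrix.exists_vecMul_eq_zero_iff.2 h0
  have h1 : c 0 = 0 := by
    have h2 : (Matrix.vecMul c (svN f j b)) ⬝ᵥ v = 0 := by rw [hc0, zero_dotProduct]
    rw [← Matrix.dotProduct_mulVec] at h2
    have h3 : (svN f j b).mulVec v = Pi.single 0 1 := by
      funext a
      refine Fin.cases ?_ (fun i => ?_) a
      · change (Pi.single (M := fun _ => A) j 1) ⬝ᵥ v = _
        rw [single_dotProduct, one_mul, hv, Pi.single_eq_same]
      · change grad f (b i) ⬝ᵥ v = _
        rw [Pi.single_eq_of_ne (Fin.succ_ne_zero i)]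
        exact htan i
    rw [h3, dotProduct_single, mul_one] at h2
    exact h2
  have h4 : ∑ i : Fin r, c i.succ • grad f (b i) = 0 := by
    funext l
    have h5 := congrFun hc0 l
    rw [Matrix.vecMul, dotProduct, Fin.sum_univ_succ, h1, zero_mul, zero_add] at h5
    rw [Finset.sum_apply]
    exact h5
  have h6 := Fintype.linearIndependent_iff.1 hind (fun i => c i.succ) h4
  apply hc
  funext a
  exact Fin.cases h1 h6 a

theorem sv_indep {A : Type} [Field A] [Algebra ℂ A] (f : MvPolynomial (Fin (r + 1)) ℂ)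
    (j : Fin (r + 1)) (b : Fin r → Fin (r + 1) → A) (h : (svN f j b).det ≠ 0) :
    LinearIndependent A fun i => grad f (b i) := by
  have h1 := Matrix.linearIndependent_rows_of_det_ne_zero h
  have h2 := h1.comp (fun i : Fin r => i.succ) (Fin.succ_injective r)
  exact h2

/-- a vector killed by the gradients and the `j`-th coordinate is zero -/
theorem sv_ker {A : Type} [Field A] [Algebra ℂ A] (f : MvPolynomial (Fin (r + 1)) ℂ)
    (j : Fin (r + 1)) (b : Fin r → Fin (r + 1) → A) (h : (svN f j b).det ≠ 0)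
    (d : Fin (r + 1) → A) (hd : d j = 0) (h2 : ∀ i, ∑ l, grad f (b i) l * d l = 0) : d = 0 := by
  by_contra hne
  refine h (Matrix.exists_mulVec_eq_zero_iff.1 ⟨d, hne, ?_⟩)
  funext a
  refine Fin.cases ?_ (fun i => ?_) a
  · change (Pi.single (M := fun _ => A) j 1) ⬝ᵥ d = _
    rw [single_dotProduct, one_mul, hd]
    rfl
  · exact h2 i

end

/-- the Jacobian of the system is invertible -/
theorem sv_jac {r : ℕ} (f : MvPolynomial (Fin (r + 1)) ℂ) (j : Fin (r + 1))
    (x v : Fin (r + 1) → ℂ) (τ : Fin r → ℂ) (hv : v j = 1) (hτ : ∀ i, τ i ≠ 0)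
    (htan : ∀ i, ∑ l, grad f (pt x v (τ i)) l * v l = 0)
    (hess_ne : ∀ i, hess f (pt x v (τ i)) v ≠ 0)
    (hind : LinearIndependent ℂ fun i => grad f (pt x v (τ i))) :
    (Matrix.of fun i j' => eval (Sum.elim x (Sum.elim v τ))
      (pderiv (Sum.inr j') (svF f j i))).det ≠ 0 := by
  intro h0
  obtain ⟨c, hc, hc0⟩ := Matrix.exists_mulVec_eq_zero_iff.2 h0
  set ev : SvR r →ₐ[ℂ] ℂ := aeval (Sum.elim x (Sum.elim v τ)) with hev
  have hee : ∀ g : SvR r, eval (Sum.elim x (Sum.elim v τ)) g = ev g := fun g =>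
    (DFunLike.congr_fun (MvPolynomial.coe_aeval_eq_eval (Sum.elim x (Sum.elim v τ))) g).symm
  -- the derivation `∑ c a ∂/∂y_a`
  let δ : Derivation ℂ (SvR r) (SvR r) :=
    ∑ a : Fin (r + 1) ⊕ Fin r, (C (c a) : SvR r) • (pderiv (Sum.inr a) : Derivation ℂ (SvR r) (SvR r))
  have hδ : ∀ g : SvR r, ev (δ g) = ∑ a, ev (pderiv (Sum.inr a) g) * c a := by
    intro g
    have h1 : δ g = ∑ a : Fin (r + 1) ⊕ Fin r, C (c a) * pderiv (Sum.inr a) g := by
      change (Derivation.coeFnAddMonoidHom
        (∑ a : Fin (r + 1) ⊕ Fin r, (C (c a) : SvR r) •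
          (pderiv (Sum.inr a) : Derivation ℂ (SvR r) (SvR r)))) g = _
      rw [map_sum, Finset.sum_apply]
      rfl
    rw [h1, map_sum]
    refine Finset.sum_congr rfl fun a _ => ?_
    rw [map_mul, hev, aeval_C, mul_comm]
    rfl
  have hrow : ∀ i, ev (δ (svF f j i)) = 0 := by
    intro i
    rw [hδ]
    have := congrFun hc0 i
    rw [Matrix.mulVec, dotProduct] at this
    rw [← show _ = (0 : ℂ) from this]
    refine Finset.sum_congr rfl fun a _ => ?_
    rw [Matrix.of_apply, hee]
  have hX : ∀ a, ev (δ (X (Sum.inr a))) = c a := by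
    intro a
    rw [hδ, Finset.sum_eq_single a]
    · rw [pderiv_X_self, map_one, one_mul]
    · intro b _ hb
      rw [pderiv_X_of_ne (fun h => hb (Sum.inr_injective h).symm), map_zero, zero_mul]
    · intro h
      exact absurd (Finset.mem_univ a) h
  have hX0 : ∀ l, ev (δ (X (Sum.inl l))) = 0 := by
    intro l
    rw [hδ]
    refine Finset.sum_eq_zero fun b _ => ?_
    rw [pderiv_X_of_ne (by simp), map_zero, zero_mul]
  have hP : ∀ i l, ev (δ (svP i l)) = τ i * c (Sum.inl l) + c (Sum.inr i) * v l := by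
    intro i l
    have h1 : svP i l = X (Sum.inl l) + X (Sum.inr (Sum.inr i)) * X (Sum.inr (Sum.inl l)) := rfl
    rw [h1, map_add, Derivation.leibniz, map_add, hX0, smul_eq_mul, smul_eq_mul, map_add, map_mul,
      map_mul, hX, hX, hev, aeval_X, aeval_X]
    simp only [Sum.elim_inr, Sum.elim_inl]
    ring
  -- first row
  have h1 : c (Sum.inl j) = 0 := by
    have h := hrow (Sum.inl 0)
    have h2 : svF f j (Sum.inl 0) = X (Sum.inr (Sum.inl j)) - 1 := rfl
    rw [h2, map_sub, Derivation.map_one_eq_zero, sub_zero, hX] at h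
    exact h
  have h2 : ∀ i, ∑ l, grad f (pt x v (τ i)) l * c (Sum.inl l) = 0 := by
    intro i
    have h := hrow (Sum.inl i.succ)
    have h3 : svF f j (Sum.inl i.succ) = aeval (svP i) f := rfl
    rw [h3, sv_chain, map_sum] at h
    have h4 : ∀ l, ev (aeval (svP i) (pderiv l f) * δ (svP i l)) =
        τ i * (grad f (pt x v (τ i)) l * c (Sum.inl l)) +
          c (Sum.inr i) * (grad f (pt x v (τ i)) l * v l) := by
      intro l
      rw [map_mul, hP, hev, sv_aeval]
      change grad f (pt x v (τ i)) l * _ = _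
      ring
    rw [Finset.sum_congr rfl fun l _ => h4 l, Finset.sum_add_distrib, ← Finset.mul_sum,
      ← Finset.mul_sum, htan, mul_zero, add_zero] at h
    exact (mul_eq_zero.1 h).resolve_left (hτ i)
  have h3 : (fun l => c (Sum.inl l)) = 0 :=
    sv_ker f j (fun i => pt x v (τ i)) (sv_det_ne f j _ v hv htan hind) _ h1 h2
  have h3' : ∀ l, c (Sum.inl l) = 0 := fun l => congrFun h3 l
  have h4 : ∀ i, c (Sum.inr i) = 0 := by
    intro i
    have h := hrow (Sum.inr i)
    have h5 : svF f j (Sum.inr i) = ∑ l, grad f (svP i) l * X (Sum.inr (Sum.inl l)) := rfl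
    rw [h5, map_sum, map_sum] at h
    have h6 : ∀ l, ev (δ (grad f (svP i) l * X (Sum.inr (Sum.inl l)))) =
        c (Sum.inr i) * ∑ l', aeval (pt x v (τ i)) (pderiv l' (pderiv l f)) * (v l' * v l) := by
      intro l
      rw [Derivation.leibniz, map_add, smul_eq_mul, smul_eq_mul, map_mul, hX, h3' l, mul_zero,
        zero_add, map_mul]
      have h7 : grad f (svP i) l = aeval (svP i) (pderiv l f) := rfl
      rw [h7, sv_chain, map_sum, hev, aeval_X, Finset.mul_sum, Finset.mul_sum]
      refine Finset.sum_congr rfl fun l' _ => ?_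
      rw [← hev, map_mul, hP, h3' l', mul_zero, zero_add, hev, sv_aeval]
      simp only [Sum.elim_inr, Sum.elim_inl]
      ring
    rw [Finset.sum_congr rfl fun l _ => h6 l, ← Finset.mul_sum] at h
    refine (mul_eq_zero.1 h).resolve_right ?_
    have h8 := hess_ne i
    unfold hess at h8
    rw [Finset.sum_comm] at h8
    exact h8
  apply hc
  funext a
  cases a with
  | inl l => exact h3' l
  | inr i => exact h4 i

/-- Choose `j` with `v j ≠ 0`, rescale to `v j = 1`, choose `x0 = p + c v` with `c ≠ a i`. Unknowns `v'`, `τ`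
(index type `Fin (r + 1) ⊕ Fin r`), equations `v' j = 1`, `f (x + τ_i v') = 0`, `∇f (x + τ_i v') · v' = 0`. The
Jacobian is block triangular: `(τ_i ∇f ; e_j)` is invertible as the gradients are independent and orthogonal to
`v`, `e_j · v = 1`; the other block is the diagonal matrix of the second derivatives. `aift`: all the
inequalities specialise. -/
theorem exists_tangent {r : ℕ} (f : MvPolynomial (Fin (r + 1)) ℂ) (p v : Fin (r + 1) → ℂ)
    (a : Fin r → ℂ) (h : IsTangent f p v a) (Ω : Type) [Field Ω] [Algebra ℂ Ω] [IsAlgClosed Ω]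
    (x : Fin (r + 1) → Ω) (hx : AlgebraicIndependent ℂ x) :
    ∃ (v' : Fin (r + 1) → Ω) (τ : Fin r → Ω) (j : Fin (r + 1)), IsTan f x v' τ ∧
      (∀ i, τ i ≠ 0) ∧ v' j = 1 := by
  classical
  obtain ⟨j, hj⟩ := Function.ne_iff.1 h.v_ne
  rw [Pi.zero_apply] at hj
  -- a parameter different from all the `a i`
  obtain ⟨c, hc⟩ := Infinite.exists_notMem_finset (Finset.univ.image a)
  have hc' : ∀ i, a i - c ≠ 0 := fun i hi => hc (Finset.mem_image.2 ⟨i, Finset.mem_univ _, sub_eq_zero.1 hi⟩)
  let v0 : Fin (r + 1) → ℂ := fun l => v l / v j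
  let x0 : Fin (r + 1) → ℂ := pt p v c
  let τ0 : Fin r → ℂ := fun i => (a i - c) * v j
  have hpt : ∀ i, pt x0 v0 (τ0 i) = pt p v (a i) := by
    intro i
    funext l
    simp only [pt, x0, v0, τ0]
    field_simp
    ring
  have hv0 : v0 j = 1 := div_self hj
  have hτ0 : ∀ i, τ0 i ≠ 0 := fun i => mul_ne_zero (hc' i) hj
  have htan : ∀ i, ∑ l, grad f (pt x0 v0 (τ0 i)) l * v0 l = 0 := by
    intro i
    rw [hpt]
    have h1 : ∀ l, grad f (pt p v (a i)) l * v0 l = (grad f (pt p v (a i)) l * v l) / v j :=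
      fun l => (mul_div_assoc _ _ _).symm
    rw [Finset.sum_congr rfl fun l _ => h1 l, ← Finset.sum_div, h.tan, zero_div]
  have hhess : ∀ i, hess f (pt x0 v0 (τ0 i)) v0 ≠ 0 := by
    intro i
    rw [hpt]
    have h1 : hess f (pt p v (a i)) v0 = hess f (pt p v (a i)) v / (v j) ^ 2 := by
      unfold hess
      rw [Finset.sum_div]
      refine Finset.sum_congr rfl fun l _ => ?_
      rw [Finset.sum_div]
      refine Finset.sum_congr rfl fun m _ => ?_
      simp only [v0]
      field_simp
    rw [h1]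
    exact div_ne_zero (h.hess_ne i) (pow_ne_zero 2 hj)
  have hind : LinearIndependent ℂ fun i => grad f (pt x0 v0 (τ0 i)) := by
    have h1 : (fun i => grad f (pt x0 v0 (τ0 i))) = fun i => grad f (pt p v (a i)) := by
      funext i
      rw [hpt]
    rw [h1]
    exact h.indep
  have hzero : ∀ i, aeval (pt x0 v0 (τ0 i)) f = 0 := by
    intro i
    rw [hpt]
    exact h.zero i
  have hee : ∀ g : SvR r, eval (Sum.elim x0 (Sum.elim v0 τ0)) g =
      aeval (Sum.elim x0 (Sum.elim v0 τ0)) g := fun g =>
    (DFunLike.congr_fun (MvPolynomial.coe_aeval_eq_eval (Sum.elim x0 (Sum.elim v0 τ0))) g).symm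
  obtain ⟨y, hy, hH, -⟩ := aift (svF f j) x0 (Sum.elim v0 τ0) (by
      intro i
      rw [hee]
      rcases i with i | i
      · refine Fin.cases ?_ (fun i => ?_) i
        · change aeval _ (X (Sum.inr (Sum.inl j)) - 1 : SvR r) = 0
          rw [map_sub, aeval_X, map_one]
          simp only [Sum.elim_inr, Sum.elim_inl]
          rw [hv0, sub_self]
        · change aeval _ (aeval (svP i) f) = 0
          rw [sv_aeval, hzero]
      · change aeval _ (∑ l, grad f (svP i) l * X (Sum.inr (Sum.inl l))) = 0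
        rw [map_sum, ← htan i]
        refine Finset.sum_congr rfl fun l _ => ?_
        rw [map_mul, sv_grad, aeval_X]
        rfl) (by
      have h1 := sv_jac f j x0 v0 τ0 hv0 hτ0 htan hhess hind
      have h2 : eval (Sum.elim x0 (Sum.elim v0 τ0)) (jac (svF f j)) =
          (Matrix.of fun i j' => eval (Sum.elim x0 (Sum.elim v0 τ0))
            (pderiv (Sum.inr j') (svF f j i))).det := by
        unfold jac
        rw [RingHom.map_det]
        rfl
      rw [h2]
      exact h1) Ω x hx
  set v' : Fin (r + 1) → Ω := fun l => y (Sum.inl l) with hv'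
  set τ : Fin r → Ω := fun i => y (Sum.inr i) with hτ
  have hy' : y = Sum.elim v' τ := by
    funext a
    cases a <;> rfl
  rw [hy'] at hy hH
  have hvj : v' j = 1 := by
    have h1 := hy (Sum.inl 0)
    change aeval _ (X (Sum.inr (Sum.inl j)) - 1 : SvR r) = 0 at h1
    rw [map_sub, aeval_X, map_one] at h1
    exact sub_eq_zero.1 h1
  have htan' : ∀ i, ∑ l, grad f (pt x v' (τ i)) l * v' l = 0 := by
    intro i
    have h1 := hy (Sum.inr i)
    change aeval _ (∑ l, grad f (svP i) l * X (Sum.inr (Sum.inl l))) = 0 at h1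
    rw [map_sum] at h1
    rw [← h1]
    refine Finset.sum_congr rfl fun l _ => ?_
    rw [map_mul, sv_grad, aeval_X]
    rfl
  refine ⟨v', τ, j, ⟨?_, ?_, ?_, htan', ?_⟩, ?_, hvj⟩
  · intro h0
    rw [h0] at hvj
    exact zero_ne_one hvj
  · intro i i' hii
    by_contra hne
    have h1 := hH (X (Sum.inr (Sum.inr i)) - X (Sum.inr (Sum.inr i'))) (by
      rw [map_sub, eval_X, eval_X]
      simp only [Sum.elim_inr]
      intro h2
      apply hne
      apply h.inj
      have h3 : (a i - a i') * v j = 0 := by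
        have : τ0 i - τ0 i' = (a i - a i') * v j := by simp only [τ0]; ring
        rw [← this]
        exact h2
      exact sub_eq_zero.1 ((mul_eq_zero.1 h3).resolve_right hj))
    rw [map_sub, aeval_X, aeval_X] at h1
    exact h1 (sub_eq_zero.2 hii)
  · intro i
    have h1 := hy (Sum.inl i.succ)
    change aeval _ (aeval (svP i) f) = 0 at h1
    rw [sv_aeval] at h1
    exact h1
  · have h1 := hH (svN f j svP).det (by
      rw [hee, sv_det]
      have h2 : (fun (i : Fin r) (l : Fin (r + 1)) =>
          aeval (Sum.elim x0 (Sum.elim v0 τ0)) (svP i l)) = fun i => pt x0 v0 (τ0 i) := by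
        funext i l
        exact sv_pt x0 v0 τ0 i l
      rw [h2]
      exact sv_det_ne f j _ v0 hv0 htan hind)
    rw [sv_det] at h1
    have h2 : (fun (i : Fin r) (l : Fin (r + 1)) =>
        aeval (Sum.elim x (Sum.elim v' τ)) (svP i l)) = fun i => pt x v' (τ i) := by
      funext i l
      exact sv_pt x v' τ i l
    rw [h2] at h1
    exact sv_indep f j _ h1
  · intro i
    have h1 := hH (X (Sum.inr (Sum.inr i))) (by
      rw [eval_X]
      exact hτ0 i)
    rw [aeval_X] at h1
    exact h1

end Pool.Agent.CYn
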