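import Pool.Agent.Lib_MP_1209e6_cn.Solve
import Pool.Agent.Lib_MP_1209e6_ds.Main

/-!
# `MP_1209e6_ag`: one nondegenerate tangent line (helper73)

If ONE line is tangent to the branch divisor at `n - 1` different points, exactly to second order and with
linearly independent tangent hyperplanes, the double cover is special and Brody-special: the branch
hypersurface may have any singularities elsewhere.
-/

set_option autoImplicit false

open MvPolynomial Pool.Agent.Campana

namespace Pool.Agent.CYn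

open Pool.Agent.DS (TLine Nice Reg)

section

variable {Ω : Type} [Field Ω] [Algebra ℂ Ω] {m : ℕ} {F : MvPolynomial (Fin (m + 2)) ℂ}

/-- dehomogenisation -/
noncomputable def deh (F : MvPolynomial (Fin (m + 2)) ℂ) : MvPolynomial (Fin (m + 1)) ℂ :=
  aeval (Fin.cons 1 X : Fin (m + 2) → MvPolynomial (Fin (m + 1)) ℂ) F

theorem deh_aeval (F : MvPolynomial (Fin (m + 2)) ℂ) (z : Fin (m + 1) → Ω) :
    aeval z (deh F) = aeval (Fin.cons 1 z : Fin (m + 2) → Ω) F := by
  rw [deh, ← AlgHom.comp_apply, comp_aeval]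
  congr 2
  funext i
  refine Fin.cases ?_ (fun j => ?_) i
  · simp
  · simp

theorem deh_pderiv (F : MvPolynomial (Fin (m + 2)) ℂ) (j : Fin (m + 1)) :
    pderiv j (deh F) = deh (pderiv (Fin.succ j) F) := by
  rw [deh, Pool.Agent.DS.chain (pderiv j), Fin.sum_univ_succ, Finset.sum_eq_single j]
  · simp only [Fin.cons_succ, pderiv_X_self, one_mul, Fin.cons_zero]
    rw [Derivation.map_one_eq_zero, zero_mul, zero_add]
    rfl
  · intro i _ hi
    rw [Fin.cons_succ, pderiv_X_of_ne hi, zero_mul]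
  · simp

omit [Algebra ℂ Ω] in
theorem tod_pt (x v : Fin (m + 1) → Ω) (τ : Ω) (hτ : τ ≠ 0) :
    Pool.Agent.DS.pt x v τ⁻¹ = fun i => τ⁻¹ * (Fin.cons 1 (pt x v τ) : Fin (m + 2) → Ω) i := by
  funext i
  refine Fin.cases ?_ (fun j => ?_) i
  · simp [Pool.Agent.DS.pt]
  · simp only [Pool.Agent.DS.pt, Fin.cons_succ, pt]
    field_simp
    ring

theorem tod_scale {G : MvPolynomial (Fin (m + 2)) ℂ} {d : ℕ} (hG : G.IsHomogeneous d)
    (x v : Fin (m + 1) → Ω) (τ : Ω) (hτ : τ ≠ 0) :
    aeval (Pool.Agent.DS.pt x v τ⁻¹) G = τ⁻¹ ^ d * aeval (pt x v τ) (deh G) := by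
  rw [tod_pt x v τ hτ, Pool.Agent.DS.form_scale20 hG, deh_aeval]

theorem tod_sq {A : Type} [CommRing A] (G : Polynomial A) (s : A) (h0 : G.eval s = 0)
    (h1 : (Polynomial.derivative G).eval s = 0) : (Polynomial.X - Polynomial.C s) ^ 2 ∣ G := by
  obtain ⟨H, hH⟩ := Polynomial.dvd_iff_isRoot.2 h0
  rw [hH, Polynomial.derivative_mul, Polynomial.eval_add, Polynomial.eval_mul, Polynomial.eval_mul] at h1
  have h2 : H.eval s = 0 := by simpa using h1
  obtain ⟨H', hH'⟩ := Polynomial.dvd_iff_isRoot.2 h2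
  exact ⟨H', by rw [hH, hH']; ring⟩

/-- the tangent line as a line of the `DS` family -/
theorem exists_tline_of_tan (hF : F.IsHomogeneous (2 * m + 4)) (x v : Fin (m + 1) → Ω)
    (τ : Fin m → Ω) (h : IsTan (deh F) x v τ) (hτ : ∀ i, τ i ≠ 0)
    (hx : aeval (Fin.cons 1 x : Fin (m + 2) → Ω) F ≠ 0) : ∃ T : TLine F x, Reg T := by
  classical
  set G : Polynomial Ω := aeval (Pool.Agent.DS.lp x v) F with hG
  set s : Fin m → Ω := fun i => (τ i)⁻¹ with hs
  have hsinj : Function.Injective s := fun i j hij => h.inj (inv_injective hij)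
  have hG0 : ∀ i, G.eval (s i) = 0 := by
    intro i
    rw [hG, Pool.Agent.DS.eval_line, hs, tod_scale hF x v _ (hτ i), h.zero i, mul_zero]
  have hgrad : ∀ i j, aeval (Pool.Agent.DS.pt x v (s i)) (pderiv (Fin.succ j) F) =
      (s i) ^ (2 * m + 4 - 1) * grad (deh F) (pt x v (τ i)) j := by
    intro i j
    rw [hs, tod_scale hF.pderiv x v _ (hτ i), ← deh_pderiv]
    rfl
  have hphi : ∀ i, Pool.Agent.DS.phi F x v (s i) v = 0 := by
    intro i
    rw [Pool.Agent.DS.phi]
    have h1 : ∀ j, v j * aeval (Pool.Agent.DS.pt x v (s i)) (pderiv (Fin.succ j) F) =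
        (s i) ^ (2 * m + 4 - 1) * (grad (deh F) (pt x v (τ i)) j * v j) := by
      intro j
      rw [hgrad]
      ring
    rw [Finset.sum_congr rfl fun j _ => h1 j, ← Finset.mul_sum, h.tan i, mul_zero]
  have hG1 : ∀ i, (Polynomial.derivative G).eval (s i) = 0 := by
    intro i
    have h1 := congrArg (Polynomial.eval (s i)) (Pool.Agent.DS.euler_line hF x v)
    rw [Pool.Agent.DS.eval_Phi, Polynomial.eval_sub, Polynomial.eval_mul, Polynomial.eval_mul, ← hG,
      hG0, mul_zero, zero_sub, Polynomial.eval_X] at h1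
    simp only [Polynomial.eval_C] at h1
    have h2 : s i * (Polynomial.derivative G).eval (s i) = 0 := by
      have := hphi i
      rw [show (fun j => v j) = v from rfl] at h1
      rw [this] at h1
      exact neg_eq_zero.1 h1.symm
    exact (mul_eq_zero.1 h2).resolve_left (inv_ne_zero (hτ i))
  have hdvd : (∏ i, (Polynomial.X - Polynomial.C (s i))) ^ 2 ∣ G := by
    rw [← Finset.prod_pow]
    refine Finset.prod_dvd_of_coprime ?_ fun i _ => tod_sq G (s i) (hG0 i) (hG1 i)
    intro i _ j _ hij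
    exact (Polynomial.pairwise_coprime_X_sub_C hsinj hij).pow
  obtain ⟨r, hr⟩ := hdvd
  have hq : (∏ i, (Polynomial.X - Polynomial.C (s i))).Monic :=
    Polynomial.monic_prod_of_monic _ _ fun i _ => Polynomial.monic_X_sub_C _
  have hqd : (∏ i, (Polynomial.X - Polynomial.C (s i))).natDegree = m := by
    rw [Polynomial.natDegree_prod_of_monic _ _ fun i _ => Polynomial.monic_X_sub_C _]
    simp
  have htop := Pool.Agent.DS.line_top hF (Fin.cons 0 v : Fin (m + 2) → Ω) (Fin.cons 1 x)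
  rw [← Pool.Agent.DS.lp_eq20, ← hG] at htop
  have hGne : G ≠ 0 := by
    rintro h0
    rw [h0, Polynomial.coeff_zero] at htop
    exact hx htop.2.symm
  have hrne : r ≠ 0 := by
    rintro rfl
    rw [mul_zero] at hr
    exact hGne hr
  have hrd : r.natDegree ≤ 4 := by
    have h1 := htop.1
    rw [hr, Polynomial.natDegree_mul (pow_ne_zero 2 hq.ne_zero) hrne, Polynomial.natDegree_pow, hqd] at h1
    omega
  refine ⟨⟨v, _, r, h.v_ne, hq, hqd, hrd, hr⟩, ?_⟩
  intro σ hσ
  have h1 : ∃ i, σ = s i := by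
    have h2 : (∏ i, (Polynomial.X - Polynomial.C (s i))).eval σ = 0 := hσ
    rw [Polynomial.eval_prod, Finset.prod_eq_zero_iff] at h2
    obtain ⟨i, -, hi⟩ := h2
    exact ⟨i, by simpa [sub_eq_zero] using hi⟩
  obtain ⟨i, rfl⟩ := h1
  by_contra hcon
  push Not at hcon
  refine h.indep.ne_zero i ?_
  funext j
  have h2 := hcon j
  change aeval (Pool.Agent.DS.pt x v (s i)) (pderiv (Fin.succ j) F) = 0 at h2
  rw [hgrad] at h2
  exact (mul_eq_zero.1 h2).resolve_left (pow_ne_zero _ (inv_ne_zero (hτ i)))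

end

/-- the double cover of `ℙⁿ` branched along a hypersurface of degree `2n + 2` with one nondegenerate
`(n - 1)`-fold tangent line -/
theorem double_cover {m : ℕ} {F : MvPolynomial (Fin (m + 2)) ℂ} (hF : F.IsHomogeneous (2 * m + 4))
    (hne : F ≠ 0) (p v : Fin (m + 1) → ℂ) (a : Fin m → ℂ) (h : IsTangent (deh F) p v a) {n : ℕ}
    (P : Ideal (MvPolynomial (Fin (n + 1)) ℂ)) [P.IsPrime] (hP : IsVariety P)
    (hK : Pool.Agent.DS.IsDouble (FunField P) F) : SpecialField (FunField P) ∧ BrodySpecial P := by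
  obtain ⟨z, w, hz, hw, hgen⟩ := hK
  have hx := Pool.Agent.DS.generic_closure z w hz hw hgen
  obtain ⟨v', τ, j, ht, hτ, -⟩ := exists_tangent (deh F) p v a h (AlgebraicClosure (FunField P)) _ hx.ind
  obtain ⟨T, hT⟩ := exists_tline_of_tan hF _ v' τ ht hτ (Pool.Agent.DS.generic_ne_of_ne hne hF hx.ind)
  obtain ⟨δ, hδ⟩ := Pool.Agent.DS.exists_dual hx
  exact Pool.Agent.DS.double_cover_of_nice hF hne P hP z w hz hw hgen T
    (Pool.Agent.DS.nice hF T hT δ hδ)

end Pool.Agent.CYn
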